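import Pool.Agent.Helper74.MH.Nd

/-! OWN MP_f028d2_al, module FA: Cayley graphs, the word metric is the graph distance, and thin
triangles from the four point condition. -/

set_option autoImplicit false

namespace Pool.Agent.Helper24.OWN

open Pool.Agent.Helper74.MH

/-- The Cayley graph of `G` with respect to the family `g`. -/
def cay {G ι : Type} [Group G] (g : ι → G) : SimpleGraph G :=
  SimpleGraph.fromRel (fun x y => ∃ i, y = x * g i)

/-- Geodesic triangles in the graph `C` are `δ`-thin. -/
def Thin {V : Type} (C : SimpleGraph V) (δ : ℕ) : Prop :=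
  ∀ (x y z : V) (p : C.Walk x y) (q : C.Walk y z) (r : C.Walk z x),
    p.length = C.dist x y → q.length = C.dist y z → r.length = C.dist z x →
    ∀ u ∈ p.support, ∃ v, (v ∈ q.support ∨ v ∈ r.support) ∧ C.dist u v ≤ δ

/-- Gromov's four point condition with constant `δ`. -/
def FourPoint {V : Type} (d : V → V → ℕ) (δ : ℕ) : Prop :=
  ∀ x y z w : V,
    min ((d w x : ℤ) + d w y - d x y) ((d w y : ℤ) + d w z - d y z) - 2 * δ
      ≤ (d w x : ℤ) + d w z - d x z

section metric

variable {V : Type} {C : SimpleGraph V} {d : V → V → ℕ}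

theorem walk_ge (hd : IsPathMetric d) (h : ∀ x y, C.Adj x y ↔ d x y = 1) {x y : V}
    (p : C.Walk x y) : d x y ≤ p.length := by
  induction p with
  | nil => simp [(hd.zero_iff _ _).2 rfl]
  | cons hxy p ih =>
    have h1 := (h _ _).1 hxy
    have h2 := hd.tri _ _ _ |>.trans (add_le_add h1.le ih)
    rw [SimpleGraph.Walk.length_cons]
    omega

theorem exists_walk (hd : IsPathMetric d) (h : ∀ x y, C.Adj x y ↔ d x y = 1) :
    ∀ (k : ℕ) (x y : V), d x y = k → ∃ p : C.Walk x y, p.length = k := by
  intro k
  induction k with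
  | zero =>
    intro x y hxy
    obtain rfl := (hd.zero_iff _ _).1 hxy
    exact ⟨SimpleGraph.Walk.nil, rfl⟩
  | succ k ih =>
    intro x y hxy
    obtain ⟨z, hz, hk⟩ := hd.geod x y k (by omega)
    obtain ⟨p, hp⟩ := ih x z hk
    have h1 : d z y = 1 := by
      have hz' : d x z + d z y = d x y := hz
      omega
    refine ⟨p.concat ((h _ _).2 h1), ?_⟩
    rw [SimpleGraph.Walk.length_concat, hp]

theorem dist_eq_of (hd : IsPathMetric d) (h : ∀ x y, C.Adj x y ↔ d x y = 1) (x y : V) :
    C.dist x y = d x y := by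
  obtain ⟨p, hp⟩ := exists_walk hd h _ x y rfl
  refine le_antisymm (hp ▸ SimpleGraph.dist_le p) ?_
  obtain ⟨q, hq⟩ := (SimpleGraph.Walk.reachable p).exists_walk_length_eq_dist
  rw [← hq]
  exact walk_ge hd h q

theorem connected_of [Nonempty V] (hd : IsPathMetric d) (h : ∀ x y, C.Adj x y ↔ d x y = 1) :
    C.Connected :=
  ⟨fun x y => by
    obtain ⟨p, -⟩ := exists_walk hd h _ x y rfl
    exact p.reachable⟩

theorem on_geodesic (hC : C.Connected) {x y : V} (p : C.Walk x y) (hp : p.length = C.dist x y)
    (n : ℕ) (hn : n ≤ p.length) :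
    p.getVert n ∈ p.support ∧ C.dist x (p.getVert n) = n ∧
      C.dist (p.getVert n) y = C.dist x y - n := by
  have h1 : C.dist x (p.getVert n) ≤ n := by
    have := SimpleGraph.dist_le (p.take n)
    rw [SimpleGraph.Walk.take_length] at this
    exact this.trans (min_le_left _ _)
  have h2 : C.dist (p.getVert n) y ≤ p.length - n := by
    have := SimpleGraph.dist_le (p.drop n)
    rwa [SimpleGraph.Walk.drop_length] at this
  have h3 := hC.dist_triangle (u := x) (v := p.getVert n) (w := y)
  exact ⟨p.getVert_mem_support n, by omega, by omega⟩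

theorem of_mem_geodesic (hC : C.Connected) {x y u : V} (p : C.Walk x y)
    (hp : p.length = C.dist x y) (hu : u ∈ p.support) :
    C.dist x u + C.dist u y = C.dist x y := by
  obtain ⟨n, rfl, hn⟩ := SimpleGraph.Walk.mem_support_iff_exists_getVert.1 hu
  obtain ⟨-, h1, h2⟩ := on_geodesic hC p hp n hn
  omega

theorem thin_of_fourPoint (hC : C.Connected) {δ : ℕ} (h4 : FourPoint C.dist δ) :
    Thin C (4 * δ) := by
  intro x y z p q r hp hq hr u hu
  have e := of_mem_geodesic hC p hp hu
  have cxu : C.dist x u = C.dist u x := SimpleGraph.dist_comm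
  have cyu : C.dist y u = C.dist u y := SimpleGraph.dist_comm
  have czu : C.dist z u = C.dist u z := SimpleGraph.dist_comm
  have czx : C.dist z x = C.dist x z := SimpleGraph.dist_comm
  have cyx : C.dist y x = C.dist x y := SimpleGraph.dist_comm
  have cyz : C.dist y z = C.dist z y := SimpleGraph.dist_comm
  have h := h4 x z y u
  have key : (C.dist u x : ℤ) + C.dist u z - C.dist x z ≤ 2 * δ ∨
      (C.dist u z : ℤ) + C.dist u y - C.dist z y ≤ 2 * δ := by
    rcases min_cases ((C.dist u x : ℤ) + C.dist u z - C.dist x z)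
      ((C.dist u z : ℤ) + C.dist u y - C.dist z y) with ⟨hm, -⟩ | ⟨hm, -⟩
    · left
      rw [hm] at h
      omega
    · right
      rw [hm] at h
      omega
  rcases key with hk | hk
  · -- close to the side `z → x`
    by_cases ha : C.dist x u ≤ C.dist x z
    · obtain ⟨h1, h2, h3⟩ := on_geodesic hC r hr (C.dist z x - C.dist x u) (by omega)
      refine ⟨_, Or.inr h1, ?_⟩
      set v := r.getVert (C.dist z x - C.dist x u)
      have cvx : C.dist v x = C.dist x v := SimpleGraph.dist_comm
      have czv : C.dist z v = C.dist v z := SimpleGraph.dist_comm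
      have h5 := h4 u z v x
      rcases min_cases ((C.dist x u : ℤ) + C.dist x z - C.dist u z)
        ((C.dist x z : ℤ) + C.dist x v - C.dist z v) with ⟨hm, -⟩ | ⟨hm, -⟩
      · rw [hm] at h5
        omega
      · rw [hm] at h5
        omega
    · refine ⟨z, Or.inr r.start_mem_support, ?_⟩
      omega
  · -- close to the side `y → z`
    by_cases ha : C.dist y u ≤ C.dist y z
    · obtain ⟨h1, h2, h3⟩ := on_geodesic hC q hq (C.dist y u) (by omega)
      refine ⟨_, Or.inl h1, ?_⟩
      set v := q.getVert (C.dist y u)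
      have cvz : C.dist v z = C.dist z v := SimpleGraph.dist_comm
      have h5 := h4 u z v y
      rcases min_cases ((C.dist y u : ℤ) + C.dist y z - C.dist u z)
        ((C.dist y z : ℤ) + C.dist y v - C.dist z v) with ⟨hm, -⟩ | ⟨hm, -⟩
      · rw [hm] at h5
        omega
      · rw [hm] at h5
        omega
    · refine ⟨z, Or.inl q.end_mem_support, ?_⟩
      omega

end metric

section cayley

variable {G ι : Type} [Group G] {g : ι → G}

theorem cay_adj (hg : Subgroup.closure (Set.range g) = ⊤) (x y : G) :
    (cay g).Adj x y ↔ wd g x y = 1 := by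
  have hd := wd_isPathMetric hg
  have h1 := wd_le_one_iff hg x y
  unfold cay
  rw [SimpleGraph.fromRel_adj]
  constructor
  · rintro ⟨hne, hor⟩
    have h2 : wd g x y ≤ 1 := h1.2 (Or.inr hor)
    have h3 : wd g x y ≠ 0 := fun h => hne ((hd.zero_iff _ _).1 h)
    omega
  · intro h
    have hne : x ≠ y := fun he => by
      rw [(hd.zero_iff _ _).2 he] at h
      exact zero_ne_one h
    rcases h1.1 h.le with h2 | h2
    · exact absurd h2 hne
    · exact ⟨hne, h2⟩

theorem cay_dist (hg : Subgroup.closure (Set.range g) = ⊤) (x y : G) :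
    (cay g).dist x y = wd g x y :=
  dist_eq_of (wd_isPathMetric hg) (cay_adj hg) x y

theorem cay_connected (hg : Subgroup.closure (Set.range g) = ⊤) : (cay g).Connected :=
  connected_of (wd_isPathMetric hg) (cay_adj hg)

theorem cay_fourPoint (hg : Subgroup.closure (Set.range g) = ⊤) (h : FourPt (wd g)) :
    ∃ δ, FourPoint (cay g).dist δ := by
  obtain ⟨δ, hδ⟩ := h
  refine ⟨δ, fun x y z w => ?_⟩
  simp only [cay_dist hg]
  exact hδ x y z w

theorem cay_thin (hg : Subgroup.closure (Set.range g) = ⊤) (h : FourPt (wd g)) :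
    ∃ δ, Thin (cay g) δ := by
  obtain ⟨δ, hδ⟩ := cay_fourPoint hg h
  exact ⟨_, thin_of_fourPoint (cay_connected hg) hδ⟩

/-- The distance is at most the length of a word. -/
theorem cay_dist_le (hg : Subgroup.closure (Set.range g) = ⊤) {x y : G} (l : List (ι × Bool))
    (h : (l.map (fun p => if p.2 then g p.1 else (g p.1)⁻¹)).prod = x⁻¹ * y) :
    (cay g).dist x y ≤ l.length := by
  rw [cay_dist hg]
  exact Nat.sInf_le ⟨l, rfl, h⟩

end cayley

end Pool.Agent.Helper24.OWN
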