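import Mathlib

/-! OWN MP_f028d2_al, module FB: halting on the input 0 is complete among the recursively
enumerable predicates, and projections of computable predicates are recursively enumerable. -/

set_option autoImplicit false

namespace Pool.Agent.Helper24.OWN

open Nat.Partrec (Code)

/-- Projections of computable relations are recursively enumerable. -/
theorem re_exists {α β : Type} [Primcodable α] [Primcodable β] {f : α → β → Bool}
    (hf : Computable₂ f) : REPred (fun a => ∃ b, f a b = true) := by
  let g : α → ℕ → Bool := fun a n =>
    Option.casesOn (motive := fun _ => Bool) (Encodable.decode (α := β) n) false (fun b => f a b)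
  have hg : Computable₂ g := by
    refine Computable.option_casesOn (f := fun (_ : α × ℕ) => false)
      (Computable.decode.comp Computable.snd) (Computable.const false)
      (hf.comp (Computable.fst.comp Computable.fst) Computable.snd).to₂
  have h1 : REPred (fun a => (Nat.rfind (fun n => (Part.some (g a n) : Part Bool))).Dom) :=
    (Partrec.rfind (p := fun a n => Part.some (g a n)) hg.partrec₂).dom_re
  refine h1.of_eq fun a => ?_
  rw [Nat.rfind_dom]
  constructor
  · rintro ⟨n, hn, -⟩
    have hn' : g a n = true := (Part.mem_some_iff.1 hn).symm
    simp only [g] at hn'
    cases hd : Encodable.decode (α := β) n with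
    | none => rw [hd] at hn'; simp at hn'
    | some b => rw [hd] at hn'; exact ⟨b, hn'⟩
  · rintro ⟨b, hb⟩
    refine ⟨Encodable.encode b, ?_, fun _ => trivial⟩
    have : g a (Encodable.encode b) = true := by
      simp only [g, Encodable.encodek, hb]
    rw [this]
    exact Part.mem_some _

/-- Halting on the input 0 is complete. -/
theorem halt0_hard {α : Type} [Primcodable α] {P : α → Prop} (hP : REPred P) :
    P ≤₀ (fun k : ℕ => (Code.eval (Denumerable.ofNat Code k) 0).Dom) := by
  unfold REPred at hP
  obtain ⟨c, hc⟩ := Code.exists_code.1 hP
  let c' : Code := Code.comp c Code.left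
  have hc' : ∀ a : α, (Code.eval (Code.curry c' (Encodable.encode a)) 0).Dom ↔ P a := by
    intro a
    rw [Code.eval_curry]
    have h1 : Code.eval c' (Nat.pair (Encodable.encode a) 0) = Code.eval c (Encodable.encode a) := by
      simp [c', Code.eval]
    rw [h1, hc]
    simp [Encodable.encodek, Part.assert]
  refine ⟨fun a => Encodable.encode (Code.curry c' (Encodable.encode a)), ?_, fun a => ?_⟩
  · exact Computable.encode.comp
      ((Code.primrec₂_curry.comp (Primrec.const c') Primrec.encode).to_comp)
  · change P a ↔ (Code.eval (Denumerable.ofNat Code
      (Encodable.encode (Code.curry c' (Encodable.encode a)))) 0).Dom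
    rw [Denumerable.ofNat_encode]
    exact (hc' a).symm

/-- A predicate to which every recursively enumerable predicate is reducible is not computable. -/
theorem not_computable_of_hard {β : Type} [Primcodable β] {Q : β → Prop}
    (h : ∀ (α : Type) [Primcodable α] (P : α → Prop), REPred P → P ≤₀ Q) :
    ¬ ComputablePred Q := fun hQ =>
  ComputablePred.halting_problem 0 (ComputablePred.computable_of_manyOneReducible
    (h Code _ (ComputablePred.halting_problem_re 0)) hQ)

end Pool.Agent.Helper24.OWN
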