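import Pool.Agent.Helper81.MH.Main
import Pool.Agent.Helper88.MH.M1

/-! OWN MP_f028d2_al, module FC: the queue machine with its halting set identified, and the
computable simulation of the queue machine. -/

set_option autoImplicit false

namespace Pool.Agent.Helper24.OWN

open Pool.Agent.Helper88 Pool.Agent.Helper74.MH Pool.Agent.Helper81.MH Pool.Agent.Helper88.MH
open Nat.Partrec (Code)

/-- A two-register machine whose halting set is the halting set of the codes on the input 0. -/
theorem partM1_univ : ∃ (nP k : ℕ) (hk : 0 < k) (op : Fin nP → TOp (Fin nP) k) (p0 : Fin nP)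
    (R : ℕ → ℕ), Computable R ∧ ∀ n, TOp.Halts op hk (p0, 0, R n) ↔
      (Code.eval (Denumerable.ofNat Code n) 0).Dom := by
  classical
  obtain ⟨Γ, Λ, iΓ, fΓ, iΛ, N, S, x0, x1, x2, hS, hsup, hN⟩ := Undec.exists_TM0
  obtain ⟨M, hM⟩ := TMPass.exists_restr (S := S) N hsup
  haveI : Fintype S := hS.fintype
  have hk : 0 < Fintype.card Γ := Fintype.card_pos
  let z : Fin (Fintype.card Γ) := ⟨0, hk⟩
  let e : Γ ≃ Fin (Fintype.card Γ) :=
    (Fintype.equivFin Γ).trans (Equiv.swap (Fintype.equivFin Γ default) z)
  have he : (e default : ℕ) = 0 := by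
    have : e default = z := by
      simp only [e, Equiv.trans_apply, Equiv.swap_apply_left]
    rw [this]
  let s : S × Γ ≃ Fin (Fintype.card (S × Γ)) := Fintype.equivFin _
  refine ⟨Fintype.card (S × Γ), Fintype.card Γ, hk, op e M s, s (⟨default, hsup.1⟩, x0),
    RR (Fintype.card Γ) (e x1) (e x2), computable_RR _ _ _, ?_⟩
  intro n
  rw [← hN n, ← halts_init_iff e he hk N M s hM hsup.1, ← val_input]
  rfl

/-- A queue machine whose halting set is the halting set of the codes on the input 0. -/
theorem partM_univ : ∃ (nA nT : ℕ) (M : Mach (Fin nA) (Fin nT)), M.Good ∧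
    ∃ enc : ℕ → List (Fin nA), Computable enc ∧
      (∀ k, ((enc k).map M.chi).sum = 2) ∧
      ∀ k, M.Reach (enc k) [M.r1, M.r2] ↔ (Code.eval (Denumerable.ofNat Code k) 0).Dom := by
  obtain ⟨nP, k, hk, op, p0, R, hR, hiff⟩ := partM1_univ
  classical
  let eA := Fintype.equivFin (Sym nP k × Mode nP k)
  let eT := Fintype.equivFin (T0 hk op)
  let c1 := eA (.s p0 p0 ⟨0, hk⟩, .CB p0 ⟨0, hk⟩)
  let c2 := eA (.rho, .CB p0 ⟨0, hk⟩)
  let c3 := eA (.b, .CB p0 ⟨0, hk⟩)
  let en : ℕ → List (Fin (Fintype.card (Sym nP k × Mode nP k))) :=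
    fun m => c1 :: c2 :: (List.range m).map (fun _ => c3)
  have hen : Primrec en :=
    Primrec.list_cons.comp (Primrec.const c1) (Primrec.list_cons.comp (Primrec.const c2)
      (Primrec.list_map Primrec.list_range (Primrec.const c3).to₂))
  have htag : ∀ m, en m = (tag (conf p0 0 m p0 ⟨0, hk⟩)).map eA := by
    intro m
    simp [en, tag, conf, c1, c2, c3, List.map_const']
  refine ⟨_, _, mp (M0 hk op) eA eT, mp_good (M0_good hk op) eA eT, fun m => en (R m),
    hen.to_comp.comp hR, ?_, ?_⟩
  · intro m
    simp only [htag, List.map_map]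
    simp [mp, tag, conf, M0, Function.comp_def, chr]
  · intro m
    change (mp (M0 hk op) eA eT).Reach (en (R m)) [(mp (M0 hk op) eA eT).r1,
      (mp (M0 hk op) eA eT).r2] ↔ _
    rw [← hiff m, htag, ← M0_reach_iff p0 0 (R m) p0 ⟨0, hk⟩]
    constructor
    · intro h
      exact reach_mp eA eT h
    · intro h
      exact mp_reach eA eT h

section Sim

/-- The machine halts after exactly `N` legal steps. -/
def HaltsIn {A T : Type} (M : Mach A T) : ℕ → List A → Prop
  | 0, x => x = [M.r1, M.r2]
  | N + 1, x => ∃ t z, x = M.a t :: z ∧ HaltsIn M N (z.map (M.sg t) ++ M.g t)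

theorem haltsIn_of_reach {A T : Type} {M : Mach A T} {x : List A}
    (h : M.Reach x [M.r1, M.r2]) : ∃ N, HaltsIn M N x := by
  induction h using Relation.ReflTransGen.head_induction_on with
  | refl => exact ⟨0, rfl⟩
  | head h1 _ ih =>
    obtain ⟨N, hN⟩ := ih
    obtain ⟨t, z, rfl, rfl⟩ := h1
    exact ⟨N + 1, t, z, rfl, hN⟩

theorem reach_of_haltsIn {A T : Type} {M : Mach A T} {N : ℕ} : ∀ {x : List A},
    HaltsIn M N x → M.Reach x [M.r1, M.r2] := by
  induction N with
  | zero =>
    intro x h
    rw [show x = [M.r1, M.r2] from h]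
    exact Relation.ReflTransGen.refl
  | succ N ih =>
    rintro x ⟨t, z, rfl, h⟩
    exact Relation.ReflTransGen.head ⟨t, z, rfl, rfl⟩ (ih h)

variable {nA nT : ℕ} (M : Mach (Fin nA) (Fin nT))

open Classical in
/-- The instruction reading a letter. -/
noncomputable def insOf (y : Fin nA) : Option (Fin nT) :=
  if h : ∃ t, M.a t = y then some h.choose else none

/-- One step of the machine as a total function (a halting tape stays). -/
noncomputable def stepf (x : List (Fin nA)) : List (Fin nA) :=
  List.casesOn (motive := fun _ => List (Fin nA)) x [] (fun y z =>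
    Option.casesOn (motive := fun _ => List (Fin nA)) (insOf M y) (y :: z)
      (fun t => z.map (M.sg t) ++ M.g t))

theorem primrec_stepf : Primrec (stepf M) := by
  have h0 : Primrec (fun q : List (Fin nA) × Fin nA × List (Fin nA) => insOf M q.2.1) :=
    (Primrec.dom_finite (insOf M)).comp (Primrec.fst.comp Primrec.snd)
  have h1 : Primrec (fun q : List (Fin nA) × Fin nA × List (Fin nA) => q.2.1 :: q.2.2) :=
    Primrec.list_cons.comp (Primrec.fst.comp Primrec.snd) (Primrec.snd.comp Primrec.snd)
  have h2 : Primrec₂ (fun (q : List (Fin nA) × Fin nA × List (Fin nA)) (t : Fin nT) =>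
      q.2.2.map (M.sg t) ++ M.g t) := by
    refine Primrec.list_append.comp (Primrec.list_map
      (Primrec.snd.comp (Primrec.snd.comp Primrec.fst)) ?_)
      ((Primrec.dom_finite M.g).comp Primrec.snd)
    exact (Primrec.dom_finite (fun r : Fin nT × Fin nA => M.sg r.1 r.2)).comp
      (Primrec.pair (Primrec.snd.comp Primrec.fst) Primrec.snd)
  have h3 : Primrec₂ (fun (_ : List (Fin nA)) (q : Fin nA × List (Fin nA)) =>
      (Option.casesOn (motive := fun _ => List (Fin nA)) (insOf M q.1) (q.1 :: q.2)
        (fun t => q.2.map (M.sg t) ++ M.g t) : List (Fin nA))) :=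
    Primrec.option_casesOn h0 h1 h2
  exact Primrec.list_casesOn (Primrec.id (α := List (Fin nA))) (Primrec.const []) h3

theorem insOf_a (hM : M.Good) (t : Fin nT) : insOf M (M.a t) = some t := by
  have h : ∃ t', M.a t' = M.a t := ⟨t, rfl⟩
  unfold insOf
  rw [dif_pos h]
  exact congrArg some (hM.inj_a h.choose_spec)

theorem stepf_cons (hM : M.Good) (t : Fin nT) (z : List (Fin nA)) :
    stepf M (M.a t :: z) = z.map (M.sg t) ++ M.g t := by
  simp only [stepf, insOf_a M hM]

theorem stepf_final (hM : M.Good) : stepf M [M.r1, M.r2] = [M.r1, M.r2] := by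
  have h : insOf M M.r1 = none := by
    unfold insOf
    rw [dif_neg]
    rintro ⟨t, ht⟩
    exact hM.r1_not t ht
  simp only [stepf, h]

theorem stepf_reach (x : List (Fin nA)) : M.Reach x (stepf M x) := by
  rcases x with _ | ⟨y, z⟩
  · exact Relation.ReflTransGen.refl
  · by_cases h : ∃ t, M.a t = y
    · have h1 : insOf M y = some h.choose := by
        unfold insOf
        rw [dif_pos h]
      refine Relation.ReflTransGen.single ⟨h.choose, z, by rw [h.choose_spec], ?_⟩
      simp only [stepf, h1]
    · have h1 : insOf M y = none := by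
        unfold insOf
        rw [dif_neg h]
      have h2 : stepf M (y :: z) = y :: z := by simp only [stepf, h1]
      rw [h2]
      exact Relation.ReflTransGen.refl

theorem iterate_reach (n : ℕ) : ∀ x : List (Fin nA), M.Reach x ((stepf M)^[n] x) := by
  induction n with
  | zero => intro x; exact Relation.ReflTransGen.refl
  | succ n ih =>
    intro x
    rw [Function.iterate_succ_apply]
    exact (stepf_reach M x).trans (ih _)

theorem iterate_final (hM : M.Good) (n : ℕ) : (stepf M)^[n] [M.r1, M.r2] = [M.r1, M.r2] := by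
  induction n with
  | zero => rfl
  | succ n ih => rw [Function.iterate_succ_apply, stepf_final M hM, ih]

theorem iterate_of_haltsIn (hM : M.Good) {N : ℕ} : ∀ {x : List (Fin nA)}, HaltsIn M N x →
    ∀ n, N ≤ n → (stepf M)^[n] x = [M.r1, M.r2] := by
  induction N with
  | zero =>
    intro x h n _
    rw [show x = [M.r1, M.r2] from h]
    exact iterate_final M hM n
  | succ N ih =>
    rintro x ⟨t, z, rfl, h⟩ n hn
    obtain ⟨n, rfl⟩ : ∃ n', n = n' + 1 := ⟨n - 1, by omega⟩
    rw [Function.iterate_succ_apply, stepf_cons M hM]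
    exact ih h n (by omega)

/-- The halting time is not bounded by any computable function of the input. -/
theorem exists_slow (hM : M.Good) {enc : ℕ → List (Fin nA)} (henc : Computable enc)
    (hund : ¬ ComputablePred (fun k => M.Reach (enc k) [M.r1, M.r2])) {F : ℕ → ℕ}
    (hF : Computable F) : ∃ k N, F k < N ∧ HaltsIn M N (enc k) := by
  by_contra hcon
  have hcon' : ∀ k N, HaltsIn M N (enc k) → N ≤ F k := by
    intro k N h
    by_contra h1
    exact hcon ⟨k, N, not_le.1 h1, h⟩
  apply hund
  have h0 : Primrec₂ (fun (n : ℕ) (x : List (Fin nA)) => (stepf M)^[n] x) :=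
    Primrec.nat_iterate Primrec.fst Primrec.snd
      ((primrec_stepf M).comp Primrec.snd).to₂
  have h1 : Computable (fun k => (stepf M)^[F k] (enc k)) :=
    h0.to_comp.comp hF henc
  have h2 : ComputablePred (fun k => (stepf M)^[F k] (enc k) = [M.r1, M.r2]) := by
    have h3 : PrimrecPred (fun x : List (Fin nA) => x = [M.r1, M.r2]) :=
      Primrec.eq.comp Primrec.id (Primrec.const _)
    obtain ⟨hdec, h4⟩ := h3.computablePred
    exact ⟨fun k => hdec _, h4.comp h1⟩
  refine h2.of_eq fun k => ?_
  constructor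
  · intro h
    rw [← h]
    exact iterate_reach M _ _
  · intro h
    obtain ⟨N, hN⟩ := haltsIn_of_reach h
    exact iterate_of_haltsIn M hM hN _ (hcon' k N hN)

end Sim

end Pool.Agent.Helper24.OWN
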