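import Mathlib

/-! OWN MP_f028d2_al, module FD: lengths in free groups. -/

set_option autoImplicit false

namespace Pool.Agent.Helper24.OWN

open FreeGroup

theorem isReduced_of_same {α : Type} (b : Bool) : ∀ L : List (α × Bool),
    (∀ x ∈ L, x.2 = b) → IsReduced L
  | [], _ => IsReduced.nil
  | [_], _ => IsReduced.singleton
  | x :: y :: L, h => by
    rw [isReduced_cons_cons]
    refine ⟨fun _ => ?_, isReduced_of_same b (y :: L) fun z hz => h z (List.mem_cons_of_mem _ hz)⟩
    rw [h x (by simp), h y (by simp)]

theorem isReduced_append {α : Type} {A B : List (α × Bool)} (hA : IsReduced A)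
    (hB : IsReduced B) (h : ∀ x ∈ A, ∀ y ∈ B, x.1 ≠ y.1) : IsReduced (A ++ B) := by
  unfold FreeGroup.IsReduced at *
  rw [List.isChain_append]
  refine ⟨hA, hB, fun x hx y hy e => absurd e (h x ?_ y ?_)⟩
  · exact List.mem_of_getLast? hx
  · exact List.mem_of_head? hy

theorem norm_conj {T : Type} [DecidableEq T] (σ : List T) (n : ℕ) (hn : n ≠ 0) (b : Bool) :
    norm (mk (σ.map fun t => (some t, true)) * mk (List.replicate n ((none : Option T), b)) *
      (mk (σ.map fun t => (some t, true)))⁻¹) = 2 * σ.length + n := by
  rw [inv_mk, mul_mk, mul_mk, FreeGroup.norm, toWord_mk]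
  have hB : List.replicate n ((none : Option T), b) ≠ [] := by
    simpa [List.replicate_eq_nil_iff] using hn
  have h1 : IsReduced (σ.map fun t => ((some t : Option T), true)) :=
    isReduced_of_same true _ (by simp)
  have h2 : IsReduced (List.replicate n ((none : Option T), b)) :=
    isReduced_of_same b _ (by simp +contextual [List.mem_replicate])
  have h3 : IsReduced (invRev (σ.map fun t => ((some t : Option T), true))) := by
    refine isReduced_of_same false _ ?_
    intro x hx
    simp only [invRev, List.map_map, List.mem_reverse, List.mem_map, Function.comp_apply] at hx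
    obtain ⟨t, -, rfl⟩ := hx
    rfl
  have h4 : IsReduced ((σ.map fun t => ((some t : Option T), true)) ++
      List.replicate n ((none : Option T), b)) := by
    refine isReduced_append h1 h2 ?_
    intro x hx y hy
    rw [List.mem_map] at hx
    obtain ⟨t, -, rfl⟩ := hx
    rw [List.eq_of_mem_replicate hy]
    simp
  have h5 : IsReduced (List.replicate n ((none : Option T), b) ++
      invRev (σ.map fun t => ((some t : Option T), true))) := by
    refine isReduced_append h2 h3 ?_
    intro x hx y hy
    simp only [invRev, List.map_map, List.mem_reverse, List.mem_map, Function.comp_apply] at hy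
    obtain ⟨t, -, rfl⟩ := hy
    rw [List.eq_of_mem_replicate hx]
    simp
  rw [(h4.append_overlap h5 hB).reduce_eq]
  simp only [List.length_append, List.length_map, List.length_replicate, invRev_length]
  omega

theorem zpow_eq_mk {T : Type} [DecidableEq T] (k : ℤ) :
    (of (none : Option T)) ^ k = mk (List.replicate k.natAbs ((none : Option T), decide (0 < k))) := by
  have h : ∀ n : ℕ, (of (none : Option T)) ^ n = mk (List.replicate n ((none : Option T), true)) := by
    intro n
    rw [← mk_toWord (x := (of (none : Option T)) ^ n), toWord_of_pow]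
  rcases lt_trichotomy k 0 with hk | rfl | hk
  · obtain ⟨n, rfl⟩ : ∃ n : ℕ, k = -(n : ℤ) := ⟨k.natAbs, by omega⟩
    rw [zpow_neg, zpow_natCast, h, inv_mk]
    congr 1
    simp [invRev]
  · simp only [zpow_zero, Int.natAbs_zero, List.replicate_zero, one_eq_mk]
  · obtain ⟨n, rfl⟩ : ∃ n : ℕ, k = (n : ℤ) := ⟨k.natAbs, by omega⟩
    rw [zpow_natCast, h]
    congr 1
    simp
    omega

theorem norm_conj_zpow {T : Type} [DecidableEq T] (σ : List T) (k : ℤ) (hk : k ≠ 0) :
    norm (mk (σ.map fun t => (some t, true)) * (of (none : Option T)) ^ k *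
      (mk (σ.map fun t => (some t, true)))⁻¹) = 2 * σ.length + k.natAbs := by
  rw [zpow_eq_mk]
  exact norm_conj σ _ (Int.natAbs_ne_zero.2 hk) _

theorem norm_map_le {α β : Type} [DecidableEq α] [DecidableEq β] (g : α → FreeGroup β)
    (hg : ∀ x, norm (g x) ≤ 1) (v : FreeGroup α) : norm (FreeGroup.lift g v) ≤ norm v := by
  have key : ∀ L : List (α × Bool), norm (FreeGroup.lift g (mk L)) ≤ L.length := by
    intro L
    induction L with
    | nil =>
      rw [← one_eq_mk, _root_.map_one, FreeGroup.norm_one]
      exact Nat.zero_le _
    | cons x L ih =>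
      have h1 : (mk (x :: L) : FreeGroup α) = mk [x] * mk L := by rw [mul_mk]; rfl
      have h2 : norm (FreeGroup.lift g (mk [x])) ≤ 1 := by
        rcases x with ⟨x, b⟩
        cases b
        · have : (mk [(x, false)] : FreeGroup α) = (of x)⁻¹ := by
            simp [of, inv_mk, invRev]
          rw [this, _root_.map_inv, norm_inv_eq, lift_apply_of]
          exact hg x
        · have : (mk [(x, true)] : FreeGroup α) = of x := rfl
          rw [this, lift_apply_of]
          exact hg x
      rw [h1, _root_.map_mul, List.length_cons]
      exact (FreeGroup.norm_mul_le _ _).trans (by omega)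
  have := key v.toWord
  rwa [mk_toWord] at this

end Pool.Agent.Helper24.OWN
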