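import Pool.Agent.Helper74.MH.Defs3
import Pool.Agent.Helper24.OWN.FC
import Pool.Agent.Helper24.OWN.FD

/-! OWN MP_f028d2_al, module FE: the test element of a halting tape is a long word in the free
generators of `H`. -/

set_option autoImplicit false

namespace Pool.Agent.Helper24.OWN

open Pool.Agent.Helper74.MH

variable {A T : Type} {p : ℕ} {M : Mach A T} {Z : Noise A T p} {L : ℕ}

/-- Keep the instruction letters, send the noise generators of type 3 to one letter and kill the
other noise generators. -/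
def kap (T : Type) (p : ℕ) : FreeGroup (T ⊕ (Fin 4 × ZMod p)) →* FreeGroup (Option T) :=
  FreeGroup.lift (Sum.elim (fun t => FreeGroup.of (some t))
    (fun q => if q.1 = 3 then FreeGroup.of none else 1))

theorem kap_inl (t : T) : kap T p (FreeGroup.of (Sum.inl t)) = FreeGroup.of (some t) := by
  simp [kap]

theorem kap_inr (q : Fin 4 × ZMod p) : kap T p (FreeGroup.of (Sum.inr q)) =
    if q.1 = 3 then FreeGroup.of none else 1 := by
  simp [kap]

/-- The exponent sum. -/
def es (A : Type) (p : ℕ) : FreeGroup (XX A p) →* Multiplicative ℤ :=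
  FreeGroup.lift (fun _ => Multiplicative.ofAdd 1)

/-- The subgroup generated by the noise letters. -/
def Nss (A : Type) (p : ℕ) : Subgroup (FreeGroup (XX A p)) :=
  Subgroup.closure (Set.range fn)

theorem fn_mem (n : ZMod p) : (fn n : FreeGroup (XX A p)) ∈ Nss A p :=
  Subgroup.subset_closure ⟨n, rfl⟩

theorem pw_append {X : Type} (l l' : List X) : pw (l ++ l') = pw l * pw l' := by
  simp [pw]

theorem pw_noise_mem (l : List (ZMod p)) :
    pw (l.map (fun n => (Sum.inr (Sum.inr n) : XX A p))) ∈ Nss A p := by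
  induction l with
  | nil => simp only [List.map_nil, pw, List.prod_nil]; exact (Nss A p).one_mem
  | cons n l ih =>
    have h : pw ((n :: l).map (fun n => (Sum.inr (Sum.inr n) : XX A p))) =
        fn n * pw (l.map (fun n => (Sum.inr (Sum.inr n) : XX A p))) := by
      simp [pw, fn]
    rw [h]
    exact (Nss A p).mul_mem (fn_mem n) ih

theorem es_pw (l : List (XX A p)) : es A p (pw l) = Multiplicative.ofAdd (l.length : ℤ) := by
  induction l with
  | nil => simp [pw]
  | cons x l ih =>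
    have h : pw (x :: l) = FreeGroup.of x * pw l := by simp [pw]
    rw [h, map_mul, ih]
    simp only [es, FreeGroup.lift_apply_of, ← ofAdd_add, List.length_cons]
    push_cast
    rw [add_comm]

theorem pw_fa (l : List A) :
    pw (l.map (Sum.inl : A → XX A p)) = (l.map fa).prod := by
  simp only [pw, List.map_map]
  rfl

theorem phi_fn (t : T) (m : ZMod p) : phi (WW M Z L) t (fn m) =
    pw ((nV M Z L t (Sum.inr (Sum.inr m))).map
        (fun n => (Sum.inr (Sum.inr n) : XX A p))) := by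
  simp [phi, fn, WW, preW]

theorem phi_Nss (t : T) {n : FreeGroup (XX A p)} (hn : n ∈ Nss A p) :
    phi (WW M Z L) t n ∈ Nss A p := by
  have h : Nss A p ≤ (Nss A p).comap (phi (WW M Z L) t) := by
    unfold Nss
    rw [Subgroup.closure_le]
    rintro _ ⟨m, rfl⟩
    show phi (WW M Z L) t (fn m) ∈ Nss A p
    rw [phi_fn]
    exact pw_noise_mem _
  exact h hn

theorem es_phi (t : T) {n : FreeGroup (XX A p)} (hn : n ∈ Nss A p) :
    es A p (phi (WW M Z L) t n) = (es A p n) ^ L := by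
  unfold Nss at hn
  induction hn using Subgroup.closure_induction with
  | mem x hx =>
    obtain ⟨m, rfl⟩ := hx
    rw [phi_fn, es_pw, List.length_map]
    have h1 : (nV M Z L t (Sum.inr (Sum.inr m))).length = L := by
      simp [nV, Noise.V]
    rw [h1]
    simp only [es, fn, FreeGroup.lift_apply_of]
    rw [← ofAdd_nsmul]
    simp
  | one => simp
  | mul x y _ _ hx hy => rw [map_mul, map_mul, hx, hy, map_mul, mul_pow]
  | inv x _ hx => rw [map_inv, map_inv, hx, map_inv, inv_pow]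

theorem phi_fa (t : T) (y : A) : ∃ n ∈ Nss A p,
    phi (WW M Z L) t (fa y) = fa (M.sg t y) * n := by
  refine ⟨_, pw_noise_mem (nV M Z L t (Sum.inl y)), ?_⟩
  have e : phi (WW M Z L) t (fa y) = pw (preW M t (Sum.inl y) ++
      (nV M Z L t (Sum.inl y)).map (fun n => (Sum.inr (Sum.inr n) : XX A p))) := by
    simp [phi, fa, WW]
  rw [e, pw_append]
  congr 1

theorem phi_fe (t : T) : ∃ n ∈ Nss A p,
    phi (WW M Z L) t fe = ((M.g t).map fa).prod * fe * n := by
  refine ⟨_, pw_noise_mem (nV M Z L t (Sum.inr (Sum.inl ()))), ?_⟩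
  have e : phi (WW M Z L) t fe = pw (preW M t (Sum.inr (Sum.inl ())) ++
      (nV M Z L t (Sum.inr (Sum.inl ()))).map (fun n => (Sum.inr (Sum.inr n) : XX A p))) := by
    simp [phi, fe, WW]
  rw [e, pw_append]
  congr 1
  rw [← pw_fa]
  simp [pw, preW, fe]

/-- Noisy words with given content: `x₁ n₁ x₂ n₂ … x_m n_m e n_{m+1}`. -/
def Nsy : List A → FreeGroup (XX A p) → Prop
  | [], c => ∃ n ∈ Nss A p, c = fe * n
  | y :: x, c => ∃ n ∈ Nss A p, ∃ c', Nsy x c' ∧ c = fa y * n * c'

theorem nsy_clean (x : List A) {n : FreeGroup (XX A p)} (hn : n ∈ Nss A p) :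
    Nsy x ((x.map fa).prod * fe * n) := by
  induction x with
  | nil => exact ⟨n, hn, by simp⟩
  | cons y x ih =>
    exact ⟨1, (Nss A p).one_mem, _, ih, by simp [mul_assoc]⟩

theorem nsy_phi (t : T) (x : List A) : ∀ c : FreeGroup (XX A p), Nsy x c →
    Nsy (x.map (M.sg t) ++ M.g t) (phi (WW M Z L) t c) := by
  induction x with
  | nil =>
    rintro c ⟨n, hn, rfl⟩
    obtain ⟨m, hm, e⟩ := phi_fe (M := M) (Z := Z) (L := L) (A := A) (p := p) t
    rw [map_mul, e, mul_assoc _ m]
    exact nsy_clean _ ((Nss A p).mul_mem hm (phi_Nss t hn))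
  | cons y x ih =>
    rintro c ⟨n, hn, c', hc', rfl⟩
    obtain ⟨m, hm, e⟩ := phi_fa (M := M) (Z := Z) (L := L) (A := A) (p := p) t y
    rw [map_mul, map_mul, e]
    exact ⟨m * phi (WW M Z L) t n, (Nss A p).mul_mem hm (phi_Nss t hn), _, ih c' hc',
      by simp only [mul_assoc]⟩

theorem conj_mem (i : Fin 4) {n : FreeGroup (XX A p)} (hn : n ∈ Nss A p) :
    ∃ v, hPhi M Z L v = iX (WW M Z L) (cc p M i * n * (cc p M i)⁻¹) ∧
      kap T p v = (if i = 3 then FreeGroup.of none else 1) ^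
        (Multiplicative.toAdd (es A p n)) := by
  unfold Nss at hn
  induction hn using Subgroup.closure_induction with
  | mem x hx =>
    obtain ⟨m, rfl⟩ := hx
    refine ⟨FreeGroup.of (Sum.inr (i, m)), by simp [hPhi, hgen], ?_⟩
    rw [kap_inr]
    simp [es, fn]
  | one => exact ⟨1, by simp, by simp⟩
  | mul x y _ _ hx hy =>
    obtain ⟨v, h1, h2⟩ := hx
    obtain ⟨w, h3, h4⟩ := hy
    refine ⟨v * w, ?_, ?_⟩
    · rw [map_mul, h1, h3, ← map_mul]
      congr 1
      group
    · rw [map_mul, map_mul, h2, h4, toAdd_mul, zpow_add]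
  | inv x _ hx =>
    obtain ⟨v, h1, h2⟩ := hx
    refine ⟨v⁻¹, ?_, ?_⟩
    · rw [map_inv, h1, ← map_inv]
      congr 1
      group
    · rw [map_inv, map_inv, h2, toAdd_inv, zpow_neg]

/-- The positive words in the stable letters. -/
def Tpp (M : Mach A T) (Z : Noise A T p) (L : ℕ) : Submonoid (GG M Z L) :=
  Submonoid.closure (Set.range (tt (WW M Z L)))

theorem conj_Tpp (hL : L ≠ 0) {τ : GG M Z L} (hτ : τ ∈ Tpp M Z L) : ∀ n ∈ Nss A p,
    es A p n ≠ 1 → ∃ m ∈ Nss A p, es A p m ≠ 1 ∧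
      τ⁻¹ * iX (WW M Z L) n * τ = iX (WW M Z L) m := by
  induction hτ using Submonoid.closure_induction with
  | mem x hx =>
    obtain ⟨t, rfl⟩ := hx
    intro n hn h1
    refine ⟨_, phi_Nss t hn, ?_, hg_rel _ _ _⟩
    rw [es_phi t hn]
    intro h2
    apply h1
    have h3 : (L : ℤ) * Multiplicative.toAdd (es A p n) = 0 := by
      have := congrArg Multiplicative.toAdd h2
      simpa [toAdd_pow] using this
    rcases mul_eq_zero.1 h3 with h4 | h4
    · exact absurd (by exact_mod_cast h4) hL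
    · exact Multiplicative.toAdd.injective (by simpa using h4)
  | one => intro n hn h1; exact ⟨n, hn, h1, by simp⟩
  | mul x y _ _ hx hy =>
    intro n hn h1
    obtain ⟨m, hm, h2, e1⟩ := hx n hn h1
    obtain ⟨m', hm', h3, e2⟩ := hy m hm h2
    refine ⟨m', hm', h3, ?_⟩
    rw [← e2, ← e1]
    simp only [mul_inv_rev, mul_assoc]

theorem claim_k (N : ℕ) : ∀ (x : List A), HaltsIn M N x →
    ∀ c : FreeGroup (XX A p), Nsy x c → ∃ v : FreeGroup (T ⊕ (Fin 4 × ZMod p)), ∃ n ∈ Nss A p,
      ∃ τ ∈ Tpp M Z L, ∃ σ : List T, σ.length = N ∧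
      kap T p v = FreeGroup.mk (σ.map fun t => (some t, true)) ∧
      iX (WW M Z L) c = hPhi M Z L v * iX (WW M Z L) (cc p M 3 * n) * τ⁻¹ := by
  induction N with
  | zero =>
    intro x h
    rw [show x = [M.r1, M.r2] from h]
    rintro c ⟨n1, hn1, c1, ⟨n2, hn2, c2, ⟨n3, hn3, rfl⟩, rfl⟩, rfl⟩
    obtain ⟨v1, h1, h2⟩ := conj_mem (M := M) (Z := Z) (L := L) 1 hn1
    obtain ⟨v2, h3, h4⟩ := conj_mem (M := M) (Z := Z) (L := L) 2 hn2
    refine ⟨v1 * v2, n3, hn3, 1, (Tpp M Z L).one_mem, [], rfl, ?_, ?_⟩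
    · rw [map_mul, h2, h4, if_neg (by decide), if_neg (by decide), one_zpow, one_zpow, one_mul]
      rfl
    · rw [inv_one, mul_one, map_mul (hPhi M Z L), h1, h3, ← map_mul, ← map_mul]
      congr 1
      simp only [cc]
      group
  | succ N ih =>
    rintro x ⟨t, z, rfl, hz⟩
    rintro c ⟨n, hn, c', hc', rfl⟩
    obtain ⟨v, m, hm, τ, hτ, σ, hσ, hk, e⟩ := ih _ hz _ (nsy_phi t z c' hc')
    obtain ⟨v0, h1, h2⟩ := conj_mem (M := M) (Z := Z) (L := L) 0
      (phi_Nss (M := M) (Z := Z) (L := L) t hn)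
    refine ⟨FreeGroup.of (Sum.inl t) * v0 * v, m, hm, tt (WW M Z L) t * τ,
      (Tpp M Z L).mul_mem (Submonoid.subset_closure ⟨t, rfl⟩) hτ, t :: σ, by simp [hσ], ?_, ?_⟩
    · rw [map_mul, map_mul, h2, hk, kap_inl, if_neg (by decide), one_zpow, mul_one]
      simp [FreeGroup.of]
    · have e1 := hg_rel (WW M Z L) t (n * c')
      rw [map_mul (phi (WW M Z L) t), map_mul (iX (WW M Z L)) (phi (WW M Z L) t n), e] at e1
      rw [mul_assoc (fa (M.a t)), map_mul]
      have e2 : iX (WW M Z L) (n * c') = tt (WW M Z L) t *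
          ((tt (WW M Z L) t)⁻¹ * iX (WW M Z L) (n * c') * tt (WW M Z L) t) *
            (tt (WW M Z L) t)⁻¹ := by group
      have e3 : hPhi M Z L (FreeGroup.of (Sum.inl t)) = iX (WW M Z L) (fa (M.a t)) *
          tt (WW M Z L) t := by simp [hPhi, hgen]
      have e4 : hPhi M Z L v0 = iX (WW M Z L) (phi (WW M Z L) t n) := by
        rw [h1]
        simp [cc]
      rw [e2, e1, map_mul (hPhi M Z L), map_mul (hPhi M Z L), e3, e4]
      simp only [mul_assoc, mul_inv_rev]

/-- The test element of a tape which halts after `N` steps is the image of a word of length at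
least `N` in the free generators of `H`. -/
theorem test_long [DecidableEq T] (hL : L ≠ 0) (w : List A) (N : ℕ) (h : HaltsIn M N w) :
    ∃ v, hPhi M Z L v = testEl M Z L w ∧ N ≤ FreeGroup.norm v := by
  obtain ⟨v, n, hn, τ, hτ, σ, hσ, hk, e⟩ := claim_k (Z := Z) (L := L) N w h _
    (nsy_clean w (Nss A p).one_mem)
  obtain ⟨m, hm, hm1, e2⟩ := conj_Tpp hL hτ _ (fn_mem (A := A) (0 : ZMod p))
    (by simp [es, fn])
  have e3 : testEl M Z L w = iX (WW M Z L) ((w.map fa).prod * fe * 1) * iX (WW M Z L) (fn 0) *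
      (iX (WW M Z L) ((w.map fa).prod * fe * 1))⁻¹ := by
    rw [← map_inv, ← map_mul, ← map_mul]
    unfold testEl
    congr 1
    group
  have e4 : testEl M Z L w = hPhi M Z L v *
      iX (WW M Z L) (cc p M 3 * (n * m * n⁻¹) * (cc p M 3)⁻¹) * (hPhi M Z L v)⁻¹ := by
    rw [e3, e]
    have e5 : hPhi M Z L v * iX (WW M Z L) (cc p M 3 * n) * τ⁻¹ * iX (WW M Z L) (fn 0) *
        (hPhi M Z L v * iX (WW M Z L) (cc p M 3 * n) * τ⁻¹)⁻¹ =
        hPhi M Z L v * iX (WW M Z L) (cc p M 3 * n) * (τ⁻¹ * iX (WW M Z L) (fn 0) * τ) *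
          (iX (WW M Z L) (cc p M 3 * n))⁻¹ * (hPhi M Z L v)⁻¹ := by group
    rw [e5, e2, ← map_inv, mul_assoc (hPhi M Z L v), ← map_mul, mul_assoc (hPhi M Z L v),
      ← map_mul]
    congr 3
    group
  obtain ⟨u, hu1, hu2⟩ := conj_mem (M := M) (Z := Z) (L := L) 3
    ((Nss A p).mul_mem ((Nss A p).mul_mem hn hm) ((Nss A p).inv_mem hn))
  refine ⟨v * u * v⁻¹, ?_, ?_⟩
  · rw [map_mul, map_mul, map_inv, hu1, e4]
  · have h5 : es A p (n * m * n⁻¹) = es A p m := by
      rw [map_mul, map_mul, map_inv, mul_comm, inv_mul_cancel_left]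
    have h6 : kap T p (v * u * v⁻¹) = FreeGroup.mk (σ.map fun t => (some t, true)) *
        (FreeGroup.of (none : Option T)) ^ (Multiplicative.toAdd (es A p m)) *
        (FreeGroup.mk (σ.map fun t => (some t, true)))⁻¹ := by
      rw [map_mul, map_mul, map_inv, hk, hu2, if_pos rfl, h5]
    have h7 : FreeGroup.norm (kap T p (v * u * v⁻¹)) ≤ FreeGroup.norm (v * u * v⁻¹) := by
      refine norm_map_le _ ?_ _
      rintro (t | q)
      · simp
      · simp only [Sum.elim_inr]
        split_ifs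
        · simp
        · simp
    rw [h6, norm_conj_zpow σ _ (fun h0 => hm1 (Multiplicative.toAdd.injective (by simpa using h0))),
      hσ] at h7
    omega

end Pool.Agent.Helper24.OWN
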