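import Pool.Agent.Helper24.OWN.FB

/-! OWN MP_f028d2_al, module FF: the membership problem of a finitely generated subgroup of a
finitely presented group is recursively enumerable. -/

set_option autoImplicit false

namespace Pool.Agent.Helper24.OWN

/-- The element of `G` represented by the word `l` in the generators `g i` and their inverses. -/
def ev {G ι : Type} [Group G] (g : ι → G) (l : List (ι × Bool)) : G :=
  (l.map (fun p => if p.2 then g p.1 else (g p.1)⁻¹)).prod

/-- The membership predicate of the subgroup generated by the family `h`. -/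
def Mem {G ι κ : Type} [Group G] (g : ι → G) (h : κ → G) (l : List (ι × Bool)) : Prop :=
  ev g l ∈ Subgroup.closure (Set.range h)

section rewriting

variable {ι : Type}

theorem ev_append {G : Type} [Group G] (g : ι → G) (l m : List (ι × Bool)) :
    ev g (l ++ m) = ev g l * ev g m := by
  unfold ev
  rw [List.map_append, List.prod_append]

theorem ev_cons {G : Type} [Group G] (g : ι → G) (x : ι × Bool) (m : List (ι × Bool)) :
    ev g (x :: m) = (if x.2 then g x.1 else (g x.1)⁻¹) * ev g m := by
  unfold ev
  rw [List.map_cons, List.prod_cons]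

theorem ev_mk {R : Set (FreeGroup ι)} (l : List (ι × Bool)) :
    ev (fun i => (PresentedGroup.of i : PresentedGroup R)) l =
      PresentedGroup.mk R (FreeGroup.mk l) := by
  induction l with
  | nil => rw [← FreeGroup.one_eq_mk, map_one]; rfl
  | cons x l ih =>
    have h1 : (FreeGroup.mk (x :: l) : FreeGroup ι) = FreeGroup.mk [x] * FreeGroup.mk l := by
      rw [FreeGroup.mul_mk]; rfl
    rw [ev_cons, ih, h1, map_mul]
    congr 1
    rcases x with ⟨i, b⟩
    cases b
    · have : (FreeGroup.mk [(i, false)] : FreeGroup ι) = (FreeGroup.of i)⁻¹ := by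
        simp [FreeGroup.of, FreeGroup.inv_mk, FreeGroup.invRev]
      rw [this, map_inv]
      rfl
    · rfl

/-- One rewriting step in a context. -/
def Ctx (P : List (ι × Bool) → List (ι × Bool) → Prop) (u v : List (ι × Bool)) : Prop :=
  ∃ A B x y, P x y ∧ u = A ++ x ++ B ∧ v = A ++ y ++ B

theorem ctx_lr {P : List (ι × Bool) → List (ι × Bool) → Prop} {u v : List (ι × Bool)}
    (C D : List (ι × Bool)) (h : Relation.ReflTransGen (Ctx P) u v) :
    Relation.ReflTransGen (Ctx P) (C ++ u ++ D) (C ++ v ++ D) := by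
  refine h.lift (fun w => C ++ w ++ D) ?_
  rintro a b ⟨A, B, x, y, hxy, rfl, rfl⟩
  exact ⟨C ++ A, B ++ D, x, y, hxy, by simp, by simp⟩

theorem ctx_symm {P : List (ι × Bool) → List (ι × Bool) → Prop}
    (hs : ∀ x y, P x y → P y x) {u v : List (ι × Bool)}
    (h : Relation.ReflTransGen (Ctx P) u v) : Relation.ReflTransGen (Ctx P) v u := by
  induction h with
  | refl => exact Relation.ReflTransGen.refl
  | tail _ h ih =>
    obtain ⟨A, B, x, y, hxy, rfl, rfl⟩ := h
    exact Relation.ReflTransGen.head ⟨A, B, y, x, hs _ _ hxy, rfl, rfl⟩ ih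

/-- The congruence generated by the rules. -/
def rcon (P : List (ι × Bool) → List (ι × Bool) → Prop) (hs : ∀ x y, P x y → P y x) :
    Con (FreeMonoid (ι × Bool)) where
  r u v := Relation.ReflTransGen (Ctx P) u.toList v.toList
  iseqv := ⟨fun _ => Relation.ReflTransGen.refl, fun h => ctx_symm hs h,
    fun h h' => Relation.ReflTransGen.trans h h'⟩
  mul' := by
    intro a b c d hab hcd
    rw [FreeMonoid.toList_mul, FreeMonoid.toList_mul]
    have h1 := ctx_lr [] c.toList hab
    have h2 := ctx_lr b.toList [] hcd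
    simp only [List.nil_append, List.append_nil] at h1 h2
    exact h1.trans h2

variable {P : List (ι × Bool) → List (ι × Bool) → Prop} (hs : ∀ x y, P x y → P y x)
  (hc : ∀ i b, P [(i, b), (i, !b)] [])

include hc in
theorem cls_mul (i : ι) (b : Bool) :
    ((FreeMonoid.of (i, b) : FreeMonoid (ι × Bool)) : (rcon P hs).Quotient) *
      ((FreeMonoid.of (i, !b) : FreeMonoid (ι × Bool)) : (rcon P hs).Quotient) = 1 := by
  rw [← Con.coe_mul, ← Con.coe_one, Con.eq]
  exact Relation.ReflTransGen.single ⟨[], [], _, _, hc i b, by simp, by simp⟩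

/-- The unit given by a letter. -/
def ltu (i : ι) : ((rcon P hs).Quotient)ˣ where
  val := ((FreeMonoid.of (i, true) : FreeMonoid (ι × Bool)) : (rcon P hs).Quotient)
  inv := ((FreeMonoid.of (i, false) : FreeMonoid (ι × Bool)) : (rcon P hs).Quotient)
  val_inv := cls_mul hs hc i true
  inv_val := cls_mul hs hc i false

theorem lift_ltu (l : List (ι × Bool)) :
    ((FreeGroup.lift (ltu hs hc) (FreeGroup.mk l) : ((rcon P hs).Quotient)ˣ) :
      (rcon P hs).Quotient) = ((FreeMonoid.ofList l : FreeMonoid (ι × Bool)) :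
        (rcon P hs).Quotient) := by
  induction l with
  | nil =>
    rw [← FreeGroup.one_eq_mk, map_one]
    rfl
  | cons x l ih =>
    have h1 : (FreeGroup.mk (x :: l) : FreeGroup ι) = FreeGroup.mk [x] * FreeGroup.mk l := by
      rw [FreeGroup.mul_mk]; rfl
    rw [h1, map_mul, Units.val_mul, ih, FreeMonoid.ofList_cons, Con.coe_mul]
    congr 1
    rcases x with ⟨i, b⟩
    cases b
    · have : (FreeGroup.mk [(i, false)] : FreeGroup ι) = (FreeGroup.of i)⁻¹ := by
        simp [FreeGroup.of, FreeGroup.inv_mk, FreeGroup.invRev]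
      rw [this, map_inv, FreeGroup.lift_apply_of]
      rfl
    · have : (FreeGroup.mk [(i, true)] : FreeGroup ι) = FreeGroup.of i := rfl
      rw [this, FreeGroup.lift_apply_of]
      rfl

include hs hc in
theorem ctx_of_mk_eq {R : Set (FreeGroup ι)} (hR : ∀ ρ ∈ R, ∃ w, FreeGroup.mk w = ρ ∧ P w [])
    {u v : List (ι × Bool)} (h : PresentedGroup.mk R (FreeGroup.mk u) =
      PresentedGroup.mk R (FreeGroup.mk v)) : Relation.ReflTransGen (Ctx P) u v := by
  have h0 : ∀ ρ ∈ R, FreeGroup.lift (ltu hs hc) ρ = 1 := by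
    intro ρ hρ
    obtain ⟨w, rfl, hw⟩ := hR ρ hρ
    apply Units.ext
    rw [lift_ltu, Units.val_one, ← Con.coe_one, Con.eq]
    exact Relation.ReflTransGen.single ⟨[], [], _, _, hw, by simp, by simp⟩
  have h1 : ∀ x : FreeGroup ι, PresentedGroup.toGroup h0 (PresentedGroup.mk R x) =
      FreeGroup.lift (ltu hs hc) x := by
    intro x
    have : (PresentedGroup.toGroup h0).comp (PresentedGroup.mk R) =
        FreeGroup.lift (ltu hs hc) := by
      refine FreeGroup.ext_hom _ _ fun i => ?_
      rw [FreeGroup.lift_apply_of]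
      exact PresentedGroup.toGroup.of h0
    exact DFunLike.congr_fun this x
  have h2 := congrArg (PresentedGroup.toGroup h0) h
  rw [h1, h1] at h2
  have h3 := congrArg Units.val h2
  rw [lift_ltu, lift_ltu, Con.eq] at h3
  exact h3

end rewriting

end Pool.Agent.Helper24.OWN
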