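import Pool.Agent.Helper24.OWN.FF

/-! OWN MP_f028d2_al, module FG: the membership problem of a finitely generated subgroup of a
finitely presented group is recursively enumerable, second half. -/

set_option autoImplicit false

namespace Pool.Agent.Helper24.OWN

section re

variable {ι : Type} [DecidableEq ι]

/-- Execute one certificate entry: replace the left side of a rule by its right side. -/
def exec (Rl : List ((List (ι × Bool) × List (ι × Bool)) × Bool)) (u : List (ι × Bool))
    (c : (List (ι × Bool) × List (ι × Bool)) × ℕ) : List (ι × Bool) :=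
  if u = c.1.1 ++ ((Rl.getD c.2 (([], []), false)).1.1 ++ c.1.2) ∧
      ((Rl.getD c.2 (([], []), false)).2 = false ∨ c.1.2 = []) then
    c.1.1 ++ ((Rl.getD c.2 (([], []), false)).1.2 ++ c.1.2) else u

theorem primrec_exec [Primcodable ι]
    (Rl : List ((List (ι × Bool) × List (ι × Bool)) × Bool)) : Primrec₂ (exec Rl) := by
  have hr : Primrec (fun q : List (ι × Bool) × ((List (ι × Bool) × List (ι × Bool)) × ℕ) =>
      Rl.getD q.2.2 (([], []), false)) :=
    (Primrec.list_getD (([], []), false)).comp (Primrec.const Rl)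
      (Primrec.snd.comp Primrec.snd)
  have hA : Primrec (fun q : List (ι × Bool) × ((List (ι × Bool) × List (ι × Bool)) × ℕ) =>
      q.2.1.1) := Primrec.fst.comp (Primrec.fst.comp Primrec.snd)
  have hB : Primrec (fun q : List (ι × Bool) × ((List (ι × Bool) × List (ι × Bool)) × ℕ) =>
      q.2.1.2) := Primrec.snd.comp (Primrec.fst.comp Primrec.snd)
  have hx := Primrec.fst.comp (Primrec.fst.comp hr)
  have hy := Primrec.snd.comp (Primrec.fst.comp hr)
  have hb := Primrec.snd.comp hr
  have hu : Primrec (fun q : List (ι × Bool) × ((List (ι × Bool) × List (ι × Bool)) × ℕ) =>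
      q.1) := Primrec.fst
  have h1 := Primrec.list_append.comp hA (Primrec.list_append.comp hx hB)
  have h2 := Primrec.list_append.comp hA (Primrec.list_append.comp hy hB)
  have c1 := Primrec.eq.comp hu h1
  have c2 := Primrec.eq.comp hb (Primrec.const false)
  have c3 := Primrec.eq.comp hB (Primrec.const ([] : List (ι × Bool)))
  have c4 := c1.and (c2.or c3)
  exact Primrec.ite c4 h2 hu

/-- A rewriting step with end rules. -/
def Stp (Rl : List ((List (ι × Bool) × List (ι × Bool)) × Bool)) (u v : List (ι × Bool)) :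
    Prop :=
  ∃ A B r, r ∈ Rl ∧ u = A ++ (r.1.1 ++ B) ∧ v = A ++ (r.1.2 ++ B) ∧ (r.2 = false ∨ B = [])

theorem exec_stp (Rl : List ((List (ι × Bool) × List (ι × Bool)) × Bool))
    (u : List (ι × Bool)) (c : (List (ι × Bool) × List (ι × Bool)) × ℕ) :
    Relation.ReflTransGen (Stp Rl) u (exec Rl u c) := by
  unfold exec
  split_ifs with h
  · obtain ⟨h1, h2⟩ := h
    by_cases hc : c.2 < Rl.length
    · have h3 : Rl.getD c.2 (([], []), false) = Rl[c.2] := by
        simp [List.getD_eq_getElem?_getD, hc]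
      rw [h3] at h1 h2 ⊢
      exact Relation.ReflTransGen.single ⟨c.1.1, c.1.2, Rl[c.2], List.getElem_mem hc, h1, rfl, h2⟩
    · have h3 : Rl.getD c.2 (([], []), false) = (([], []), false) := by
        simp [List.getD_eq_getElem?_getD, not_lt.1 hc]
      rw [h3] at h1 ⊢
      rw [h1]
  · exact Relation.ReflTransGen.refl

theorem stp_exec {Rl : List ((List (ι × Bool) × List (ι × Bool)) × Bool)}
    {u v : List (ι × Bool)} (h : Stp Rl u v) : ∃ c, exec Rl u c = v := by
  obtain ⟨A, B, r, hr, h1, h2, h3⟩ := h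
  obtain ⟨i, hi, rfl⟩ := List.mem_iff_getElem.1 hr
  have h4 : Rl.getD i (([], []), false) = Rl[i] := by
    simp [List.getD_eq_getElem?_getD, hi]
  refine ⟨((A, B), i), ?_⟩
  unfold exec
  simp only [h4]
  rw [if_pos ⟨h1, h3⟩, h2]

theorem foldl_iff (Rl : List ((List (ι × Bool) × List (ι × Bool)) × Bool))
    (l : List (ι × Bool)) :
    (∃ cs : List ((List (ι × Bool) × List (ι × Bool)) × ℕ), cs.foldl (exec Rl) [] = l) ↔
      Relation.ReflTransGen (Stp Rl) [] l := by
  constructor
  · rintro ⟨cs, rfl⟩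
    induction cs using List.reverseRecOn with
    | nil => exact Relation.ReflTransGen.refl
    | append_singleton cs c ih =>
      rw [List.foldl_append, List.foldl_cons, List.foldl_nil]
      exact ih.trans (exec_stp Rl _ c)
  · intro h
    induction h with
    | refl => exact ⟨[], rfl⟩
    | tail _ h ih =>
      obtain ⟨cs, rfl⟩ := ih
      obtain ⟨c, rfl⟩ := stp_exec h
      exact ⟨cs ++ [c], by rw [List.foldl_append, List.foldl_cons, List.foldl_nil]⟩

theorem reach_re [Primcodable ι] (Rl : List ((List (ι × Bool) × List (ι × Bool)) × Bool)) :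
    REPred (fun l : List (ι × Bool) => Relation.ReflTransGen (Stp Rl) [] l) := by
  have h1 : Primrec₂ (fun (_ : List (ι × Bool))
      (cs : List ((List (ι × Bool) × List (ι × Bool)) × ℕ)) => cs.foldl (exec Rl) []) := by
    refine (Primrec.list_foldl (h := fun _ q => exec Rl q.1 q.2) Primrec.snd
      (Primrec.const ([] : List (ι × Bool))) ?_)
    exact (primrec_exec Rl).comp (Primrec.fst.comp Primrec.snd) (Primrec.snd.comp Primrec.snd)
  have h2 : Computable₂ (fun (l : List (ι × Bool))
      (cs : List ((List (ι × Bool) × List (ι × Bool)) × ℕ)) =>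
      decide (cs.foldl (exec Rl) [] = l)) :=
    ((Primrec.eq.comp h1 Primrec.fst).decide).to_comp
  refine (re_exists h2).of_eq fun l => ?_
  rw [← foldl_iff]
  simp

end re

section membership

variable {ι : Type} [DecidableEq ι] [Primcodable ι] [Finite ι]

theorem mem_re {R : Set (FreeGroup ι)} (hR : R.Finite) {n : ℕ} (h : Fin n → PresentedGroup R) :
    REPred (Mem (fun i => (PresentedGroup.of i : PresentedGroup R)) h) := by
  classical
  -- words for the generators of the subgroup
  have hw : ∀ j, ∃ w : List (ι × Bool), PresentedGroup.mk R (FreeGroup.mk w) = h j := by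
    intro j
    obtain ⟨x, hx⟩ := PresentedGroup.mk_surjective R (h j)
    exact ⟨x.toWord, by rw [FreeGroup.mk_toWord, hx]⟩
  choose w hw using hw
  -- the rules
  let P0 : List (ι × Bool) → List (ι × Bool) → Prop := fun x y =>
    (∃ i b, x = [(i, b), (i, !b)] ∧ y = []) ∨ (∃ ρ ∈ R, x = ρ.toWord ∧ y = [])
  let P : List (ι × Bool) → List (ι × Bool) → Prop := fun x y => P0 x y ∨ P0 y x
  have hfin0 : {q : List (ι × Bool) × List (ι × Bool) | P0 q.1 q.2}.Finite := by
    refine Set.Finite.subset ((Set.finite_range (fun q : ι × Bool =>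
      ([(q.1, q.2), (q.1, !q.2)], ([] : List (ι × Bool))))).union
      (hR.image (fun ρ => (ρ.toWord, ([] : List (ι × Bool)))))) ?_
    rintro ⟨x, y⟩ (⟨i, b, h1, h2⟩ | ⟨ρ, hρ, h1, h2⟩)
    · left
      simp only at h1 h2
      subst h1 h2
      exact ⟨(i, b), rfl⟩
    · right
      simp only at h1 h2
      subst h1 h2
      exact ⟨ρ, hρ, rfl⟩
  have hfin1 : {q : List (ι × Bool) × List (ι × Bool) | P q.1 q.2}.Finite := by
    refine (hfin0.union (hfin0.image Prod.swap)).subset ?_
    rintro ⟨x, y⟩ (h1 | h1)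
    · exact Or.inl h1
    · exact Or.inr ⟨(y, x), h1, rfl⟩
  have hfin2 : {q : (List (ι × Bool) × List (ι × Bool)) × Bool |
      (q.2 = false ∧ P q.1.1 q.1.2) ∨ (q.2 = true ∧ q.1.1 = [] ∧
        ∃ j, q.1.2 = w j ∨ q.1.2 = FreeGroup.invRev (w j))}.Finite := by
    refine Set.Finite.subset ((hfin1.image (fun q => (q, false))).union
      ((Set.finite_range (fun j => ((([] : List (ι × Bool)), w j), true))).union
      (Set.finite_range (fun j => ((([] : List (ι × Bool)), FreeGroup.invRev (w j)), true))))) ?_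
    rintro ⟨⟨x, y⟩, b⟩ (⟨h1, h2⟩ | ⟨h1, h2, j, h3 | h3⟩)
    · left
      simp only at h1
      subst h1
      exact ⟨(x, y), h2, rfl⟩
    · right; left
      simp only at h1 h2 h3
      subst h1 h2 h3
      exact ⟨j, rfl⟩
    · right; right
      simp only at h1 h2 h3
      subst h1 h2 h3
      exact ⟨j, rfl⟩
  let Rl := hfin2.toFinset.toList
  have hRl : ∀ q, q ∈ Rl ↔ (q.2 = false ∧ P q.1.1 q.1.2) ∨ (q.2 = true ∧ q.1.1 = [] ∧
        ∃ j, q.1.2 = w j ∨ q.1.2 = FreeGroup.invRev (w j)) := by
    intro q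
    simp [Rl]
  refine (reach_re Rl).of_eq fun l => ?_
  unfold Mem
  rw [ev_mk]
  -- soundness of the symmetric rules
  have hP0 : ∀ x y, P0 x y → PresentedGroup.mk R (FreeGroup.mk x) =
      PresentedGroup.mk R (FreeGroup.mk y) := by
    rintro x y (⟨i, b, rfl, rfl⟩ | ⟨ρ, hρ, rfl, rfl⟩)
    · congr 1
      apply Quot.sound
      exact FreeGroup.Red.Step.cons_not
    · rw [FreeGroup.mk_toWord, ← FreeGroup.one_eq_mk, map_one]
      exact PresentedGroup.one_of_mem hρ
  have hP : ∀ x y, P x y → PresentedGroup.mk R (FreeGroup.mk x) =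
      PresentedGroup.mk R (FreeGroup.mk y) := by
    rintro x y (h1 | h1)
    · exact hP0 _ _ h1
    · exact (hP0 _ _ h1).symm
  have hmk : ∀ a b : List (ι × Bool), PresentedGroup.mk R (FreeGroup.mk (a ++ b)) =
      PresentedGroup.mk R (FreeGroup.mk a) * PresentedGroup.mk R (FreeGroup.mk b) := by
    intro a b
    rw [← FreeGroup.mul_mk, map_mul]
  have hin : ∀ j, h j ∈ Subgroup.closure (Set.range h) := fun j =>
    Subgroup.subset_closure ⟨j, rfl⟩
  constructor
  · intro hl
    induction hl with
    | refl =>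
      rw [← FreeGroup.one_eq_mk, map_one]
      exact Subgroup.one_mem _
    | tail _ hs ih =>
      obtain ⟨A, B, r, hr, rfl, rfl, hB⟩ := hs
      rcases (hRl r).1 hr with ⟨-, h2⟩ | ⟨h1, h2, j, h3⟩
      · rw [hmk, hmk, ← hP _ _ h2, ← hmk, ← hmk]
        exact ih
      · have hB' : B = [] := by
          rcases hB with h4 | h4
          · rw [h1] at h4; exact absurd h4 (by decide)
          · exact h4
        subst hB'
        rw [h2] at ih
        simp only [List.append_nil] at ih ⊢
        rw [hmk]
        refine Subgroup.mul_mem _ ih ?_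
        rcases h3 with h3 | h3
        · rw [h3, hw]
          exact hin j
        · rw [h3, ← FreeGroup.inv_mk, map_inv, hw]
          exact Subgroup.inv_mem _ (hin j)
  · intro hl
    -- a reachable word with the same value
    have h1 : ∀ x ∈ Subgroup.closure (Set.range h), ∀ u : List (ι × Bool),
        Relation.ReflTransGen (Stp Rl) [] u → ∃ v : List (ι × Bool),
        Relation.ReflTransGen (Stp Rl) [] v ∧ PresentedGroup.mk R (FreeGroup.mk v) =
          PresentedGroup.mk R (FreeGroup.mk u) * x := by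
      intro x hx
      induction hx using Subgroup.closure_induction_right with
      | one => intro u hu; exact ⟨u, hu, by rw [mul_one]⟩
      | mul_right x _ y hy ih =>
        obtain ⟨j, rfl⟩ := hy
        intro u hu
        obtain ⟨v, hv, e⟩ := ih u hu
        refine ⟨v ++ w j, hv.tail ⟨v, [], (([], w j), true), (hRl _).2 (Or.inr ⟨rfl, rfl, j,
          Or.inl rfl⟩), by simp, by simp, Or.inr rfl⟩, ?_⟩
        rw [hmk, e, hw, mul_assoc]
      | mul_inv_cancel x _ y hy ih =>
        obtain ⟨j, rfl⟩ := hy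
        intro u hu
        obtain ⟨v, hv, e⟩ := ih u hu
        refine ⟨v ++ FreeGroup.invRev (w j), hv.tail ⟨v, [], (([], FreeGroup.invRev (w j)), true),
          (hRl _).2 (Or.inr ⟨rfl, rfl, j, Or.inr rfl⟩), by simp, by simp, Or.inr rfl⟩, ?_⟩
        rw [hmk, ← FreeGroup.inv_mk, map_inv, e, hw, mul_assoc]
    obtain ⟨v, hv, e⟩ := h1 _ hl [] Relation.ReflTransGen.refl
    rw [← FreeGroup.one_eq_mk, map_one, one_mul] at e
    have h2 : Relation.ReflTransGen (Ctx P) v l := by
      refine ctx_of_mk_eq (R := R) (fun x y hxy => hxy.symm) (fun i b => Or.inl (Or.inl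
        ⟨i, b, rfl, rfl⟩)) ?_ e
      intro ρ hρ
      exact ⟨ρ.toWord, FreeGroup.mk_toWord, Or.inl (Or.inr ⟨ρ, hρ, rfl, rfl⟩)⟩
    refine hv.trans (h2.lift id ?_)
    rintro a b ⟨A, B, x, y, hxy, rfl, rfl⟩
    exact ⟨A, B, ((x, y), false), (hRl _).2 (Or.inl ⟨rfl, hxy⟩), by simp, by simp, Or.inl rfl⟩

end membership

end Pool.Agent.Helper24.OWN
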