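import Pool.Agent.Helper74.MH.Defs3
import Pool.Agent.Helper24.OWN.FA
import Pool.Agent.Helper24.OWN.FG

/-! OWN MP_f028d2_al, module FH: transport to index types `Fin`, computable pieces. -/

set_option autoImplicit false

namespace Pool.Agent.Helper24.OWN

open Pool.Agent.Helper74.MH

/-- The relators `t⁻¹ x t φ_t(x)⁻¹`. -/
def rels {m k : ℕ} (φ : Fin k → FreeGroup (Fin m) →* FreeGroup (Fin m)) :
    Set (FreeGroup (Fin m ⊕ Fin k)) :=
  {r | ∃ t x, r = (FreeGroup.of (Sum.inr t))⁻¹ * FreeGroup.of (Sum.inl x) *
    FreeGroup.of (Sum.inr t) * (FreeGroup.map Sum.inl (φ t (FreeGroup.of x)))⁻¹}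

/-- The generators of the group presented by `rels φ`. -/
def gen {m k : ℕ} (φ : Fin k → FreeGroup (Fin m) →* FreeGroup (Fin m)) :
    Fin m ⊕ Fin k → PresentedGroup (rels φ) := fun i => PresentedGroup.of i

theorem rels_finite {m k : ℕ} (φ : Fin k → FreeGroup (Fin m) →* FreeGroup (Fin m)) :
    (rels φ).Finite := by
  refine (Set.finite_range (fun q : Fin k × Fin m => (FreeGroup.of (Sum.inr q.1))⁻¹ *
    FreeGroup.of (Sum.inl q.2) * FreeGroup.of (Sum.inr q.1) *
      (FreeGroup.map Sum.inl (φ q.1 (FreeGroup.of q.2)))⁻¹)).subset ?_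
  rintro r ⟨t, x, rfl⟩
  exact ⟨(t, x), rfl⟩

theorem closure_gen {m k : ℕ} (φ : Fin k → FreeGroup (Fin m) →* FreeGroup (Fin m)) :
    Subgroup.closure (Set.range (gen φ)) = ⊤ :=
  PresentedGroup.closure_range_of _

section iso

variable {X : Type} {m k : ℕ} (e : Fin m ≃ X) (W : Fin k → X → List X)

/-- The endomorphism `phi W t` transported to `Fin m`. -/
def phF (t : Fin k) : FreeGroup (Fin m) →* FreeGroup (Fin m) :=
  (FreeGroup.map e.symm).comp ((phi W t).comp (FreeGroup.map e))

theorem phF_injective (t : Fin k) (h : Function.Injective (phi W t)) :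
    Function.Injective (phF e W t) := by
  unfold phF
  rw [MonoidHom.coe_comp, MonoidHom.coe_comp]
  exact (FreeGroup.map_injective e.symm.injective).comp
    (h.comp (FreeGroup.map_injective e.injective))

theorem exists_iso : ∃ Ψ : PresentedGroup (rels (phF e W)) ≃* HG X (Fin k) W,
    ∀ i, Ψ (gen (phF e W) i) = PresentedGroup.of (Equiv.sumCongr e (Equiv.refl _) i) := by
  let φ := phF e W
  -- the map from the presented group
  have hr : ∀ r ∈ rels φ, FreeGroup.lift (fun i => (PresentedGroup.of
      (Equiv.sumCongr e (Equiv.refl _) i) : HG X (Fin k) W)) r = 1 := by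
    rintro r ⟨t, x, rfl⟩
    have h1 : ∀ w : FreeGroup (Fin m), FreeGroup.lift (fun i => (PresentedGroup.of
        (Equiv.sumCongr e (Equiv.refl _) i) : HG X (Fin k) W)) (FreeGroup.map Sum.inl w) =
        iX W (FreeGroup.map e w) := by
      intro w
      have : (FreeGroup.lift (fun i => (PresentedGroup.of
        (Equiv.sumCongr e (Equiv.refl _) i) : HG X (Fin k) W))).comp (FreeGroup.map Sum.inl) =
        (iX W).comp (FreeGroup.map e) := by
        refine FreeGroup.ext_hom _ _ fun x => ?_
        simp [iX]
      exact DFunLike.congr_fun this w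
    have h2 : FreeGroup.map e (φ t (FreeGroup.of x)) = pw (W t (e x)) := by
      change FreeGroup.map e (FreeGroup.map e.symm (phi W t (FreeGroup.map e (FreeGroup.of x)))) = _
      rw [FreeGroup.map.comp]
      simp [phi]
    simp only [map_mul, map_inv, h1, h2, FreeGroup.lift_apply_of]
    rw [← hg_rel_gen W t (e x), mul_inv_eq_one]
    simp [iX, tt]
  -- the map from the HNN extension
  obtain ⟨f, hf1, hf2⟩ := hg_lift W (fun x => gen φ (Sum.inl (e.symm x)))
    (fun t => gen φ (Sum.inr t)) (by
      intro t x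
      have h1 : (FreeGroup.of (Sum.inr t))⁻¹ * FreeGroup.of (Sum.inl (e.symm x)) *
        FreeGroup.of (Sum.inr t) * (FreeGroup.map Sum.inl
          (φ t (FreeGroup.of (e.symm x))))⁻¹ ∈ rels φ := ⟨t, e.symm x, rfl⟩
      have h2 := PresentedGroup.one_of_mem h1
      rw [map_mul, map_mul, map_mul, map_inv, map_inv, mul_inv_eq_one] at h2
      have h3 : φ t (FreeGroup.of (e.symm x)) = pw ((W t x).map e.symm) := by
        change FreeGroup.map e.symm (phi W t (FreeGroup.map e (FreeGroup.of (e.symm x)))) = _
        rw [FreeGroup.map.of, Equiv.apply_symm_apply]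
        simp only [phi, FreeGroup.lift_apply_of, pw, map_list_prod, List.map_map]
        congr 1
      have h4 : ∀ l : List X, PresentedGroup.mk (rels φ) (FreeGroup.map Sum.inl
          (pw (l.map e.symm))) = (l.map (fun x => gen φ (Sum.inl (e.symm x)))).prod := by
        intro l
        simp only [pw, map_list_prod, List.map_map]
        congr 1
      rw [h3, h4] at h2
      exact h2)
  let Ψ : PresentedGroup (rels φ) →* HG X (Fin k) W := PresentedGroup.toGroup hr
  have hΨ : ∀ i, Ψ (gen φ i) = PresentedGroup.of (Equiv.sumCongr e (Equiv.refl _) i) := fun i =>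
    PresentedGroup.toGroup.of hr
  have hfX : ∀ x : X, f (PresentedGroup.of (Sum.inl x)) = gen φ (Sum.inl (e.symm x)) := by
    intro x
    have := hf1 (FreeGroup.of x)
    simpa [iX] using this
  have hfT : ∀ t : Fin k, f (PresentedGroup.of (Sum.inr t)) = gen φ (Sum.inr t) := hf2
  refine ⟨MonoidHom.toMulEquiv Ψ f ?_ ?_, fun i => hΨ i⟩
  · refine PresentedGroup.ext fun i => ?_
    change f (Ψ (gen φ i)) = gen φ i
    rw [hΨ]
    rcases i with x | t
    · change f (PresentedGroup.of (Sum.inl (e x))) = _
      rw [hfX, Equiv.symm_apply_apply]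
    · exact hfT t
  · refine PresentedGroup.ext fun i => ?_
    rcases i with x | t
    · change Ψ (f (PresentedGroup.of (Sum.inl x))) = _
      rw [hfX, hΨ]
      simp
    · change Ψ (f (PresentedGroup.of (Sum.inr t))) = _
      rw [hfT, hΨ]
      rfl

end iso

theorem ev_map {G G' ι : Type} [Group G] [Group G'] (f : G →* G') (g : ι → G)
    (l : List (ι × Bool)) : f (ev g l) = ev (fun i => f (g i)) l := by
  unfold ev
  rw [map_list_prod, List.map_map]
  congr 1
  refine List.map_congr_left fun p _ => ?_
  simp only [Function.comp_apply]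
  split_ifs
  · rfl
  · rw [map_inv]

theorem wd_map {G G' ι : Type} [Group G] [Group G'] (f : G ≃* G') (g : ι → G) (x y : G) :
    wd (fun i => f (g i)) (f x) (f y) = wd g x y := by
  unfold wd
  congr 1
  ext n
  constructor
  · rintro ⟨l, h1, h2⟩
    refine ⟨l, h1, ?_⟩
    change ev g l = x⁻¹ * y
    apply f.injective
    have h3 := ev_map f.toMonoidHom g l
    change f (ev g l) = _ at h3
    rw [h3, map_mul, map_inv]
    exact h2
  · rintro ⟨l, h1, h2⟩
    refine ⟨l, h1, ?_⟩
    change ev (fun i => f (g i)) l = _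
    have h3 := ev_map f.toMonoidHom g l
    change f (ev g l) = _ at h3
    change ev (fun i => f (g i)) l = _
    have h4 : ev (fun i => f (g i)) l = f (ev g l) := h3.symm
    rw [h4, ← map_inv, ← map_mul]
    congr 1

/-- Computable functions have computable monotone majorants. -/
theorem exists_majorant (f : ℕ → ℕ) (hf : Computable f) :
    ∃ F : ℕ → ℕ, Computable F ∧ ∀ i n, i ≤ n → f i ≤ F n := by
  let F : ℕ → ℕ := fun n => Nat.rec (f 0) (fun i v => max v (f (i + 1))) n
  refine ⟨F, ?_, ?_⟩
  · refine Computable.nat_rec (f := fun n : ℕ => n) (g := fun _ => f 0)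
      (h := fun _ q => max q.2 (f (q.1 + 1))) Computable.id (Computable.const _) ?_
    have h1 : Computable₂ (fun a b : ℕ => max a b) := Primrec.nat_max.to_comp
    exact (h1.comp (Computable.snd.comp Computable.snd) (hf.comp (Computable.succ.comp
      (Computable.fst.comp Computable.snd)))).to₂
  · intro i n hin
    induction n with
    | zero =>
      rw [Nat.le_zero.1 hin]
      exact le_refl (f 0)
    | succ n ih =>
      have hF : F (n + 1) = max (F n) (f (n + 1)) := rfl
      rw [hF]
      rcases Nat.lt_or_eq_of_le hin with h | h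
      · exact (ih (by omega)).trans (le_max_left _ _)
      · rw [h]
        exact le_max_right _ _

end Pool.Agent.Helper24.OWN
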