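import Pool.Agent.Helper74.MH.Nf
import Pool.Agent.Helper74.MH.Fe
import Pool.Agent.Helper74.MH.He
import Pool.Agent.Helper74.MH.Kd
import Pool.Agent.Helper24.OWN.FE
import Pool.Agent.Helper24.OWN.FH

/-! OWN MP_f028d2_al, module FI: final assembly. -/

set_option autoImplicit false

namespace Pool.Agent.Helper24.OWN

open Pool.Agent.Helper74.MH
open Nat.Partrec (Code)

section word

variable {nA nT p m : ℕ} {M : Mach (Fin nA) (Fin nT)}
  {Z : Noise (Fin nA) (Fin nT) p} {L : ℕ} (e : Fin m ≃ XX (Fin nA) p)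

/-- The word of the test element. -/
def tw (nT : ℕ) (w : List (Fin nA)) : List ((Fin m ⊕ Fin nT) × Bool) :=
  w.map (fun y => (Sum.inl (e.symm (Sum.inl y)), true)) ++
    ([(Sum.inl (e.symm (Sum.inr (Sum.inl ()))), true),
      (Sum.inl (e.symm (Sum.inr (Sum.inr 0))), true),
      (Sum.inl (e.symm (Sum.inr (Sum.inl ()))), false)] ++
      w.reverse.map (fun y => (Sum.inl (e.symm (Sum.inl y)), false)))

theorem primrec_tw : Primrec (tw (nA := nA) e nT) := by
  unfold tw
  refine Primrec.list_append.comp ?_ (Primrec.list_append.comp (Primrec.const _) ?_)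
  · exact Primrec.list_map Primrec.id ((Primrec.dom_finite (fun y : Fin nA =>
      ((Sum.inl (e.symm (Sum.inl y)) : Fin m ⊕ Fin nT), true))).comp Primrec.snd).to₂
  · exact Primrec.list_map Primrec.list_reverse ((Primrec.dom_finite (fun y : Fin nA =>
      ((Sum.inl (e.symm (Sum.inl y)) : Fin m ⊕ Fin nT), false))).comp Primrec.snd).to₂

theorem ev_tw (w : List (Fin nA)) :
    ev (fun i : Fin m ⊕ Fin nT => (PresentedGroup.of (Equiv.sumCongr e (Equiv.refl _) i) :
      GG M Z L)) (tw e nT w) = testEl M Z L w := by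
  have h1 : iX (WW M Z L) (w.map fa).prod =
      (w.map (fun y => (PresentedGroup.of (Sum.inl (Sum.inl y)) : GG M Z L))).prod := by
    rw [map_list_prod, List.map_map]
    congr 1
  have h2 : (iX (WW M Z L) (w.map fa).prod)⁻¹ =
      (w.reverse.map
        (fun y => (PresentedGroup.of (Sum.inl (Sum.inl y)) : GG M Z L)⁻¹)).prod := by
    rw [h1, List.prod_inv_reverse, List.map_map, ← List.map_reverse]
    rfl
  unfold testEl
  simp only [map_mul, map_inv]
  rw [h2, h1]
  simp [ev, tw, iX, fe, fn, mul_assoc, Function.comp_def]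

end word

theorem main :
    ∃ (m k n : ℕ) (φ : Fin k → FreeGroup (Fin m) →* FreeGroup (Fin m))
      (h : Fin n → PresentedGroup (rels φ)),
      (∀ t, Function.Injective (φ t)) ∧
      Function.Injective (FreeGroup.lift fun x => gen φ (Sum.inl x)) ∧
      (cay (gen φ)).Connected ∧
      (∃ δ, Thin (cay (gen φ)) δ) ∧
      (∃ δ, FourPoint (cay (gen φ)).dist δ) ∧
      Function.Injective (FreeGroup.lift h) ∧
      REPred (Mem (gen φ) h) ∧
      (∀ (α : Type) [Primcodable α] (P : α → Prop), REPred P → P ≤₀ Mem (gen φ) h) ∧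
      ¬ ComputablePred (Mem (gen φ) h) ∧
      ∀ f : ℕ → ℕ, Computable f → ∃ u : FreeGroup (Fin n),
        f ((cay (gen φ)).dist 1 (FreeGroup.lift h u)) < u.norm := by
  obtain ⟨nA, nT, M, hG, enc, henc, henc2, huniv⟩ := partM_univ
  have hund : ¬ ComputablePred (fun k => M.Reach (enc k) [M.r1, M.r2]) := by
    intro hc
    refine not_computable_of_hard (Q := fun k => M.Reach (enc k) [M.r1, M.r2]) ?_ hc
    intro α _ P hP
    obtain ⟨g, hg1, hg2⟩ := halt0_hard hP
    exact ⟨g, hg1, fun a => (hg2 a).trans (huniv _).symm⟩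
  -- parameters
  obtain ⟨P, hP⟩ : ∃ P : ℕ, ∀ t, (M.g t).length + 1 ≤ P :=
    ⟨(Finset.univ.sup fun t => (M.g t).length + 1), fun t =>
      Finset.le_sup (f := fun t => (M.g t).length + 1) (Finset.mem_univ t)⟩
  set P' := P + 1 with hP'
  set Q := P' + 2 with hQ
  set h := 3 * Q with hh
  set L := 2 * h + 1 with hL
  obtain ⟨p, hp, Z, hZ⟩ := exists_noise (Fin nA) (Fin nT) L
  have hS : Stretch (FreeGroup (XX (Fin nA) p)) (Fin nT) dF (phi (WW M Z L)) h Q :=
    stretch_WW (P := P') hZ hL (fun t => (hP t).trans (by omega)) (by omega) (by omega) (by omega)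
  obtain ⟨pr, hpr⟩ := hS.exists_proj
  have hinj : Function.Injective (iX (T := Fin nT) (WW M Z L)) :=
    iX_injective (WW M Z L) pr (fun t u f => hS.pr_mul hpr t u f) (fun t => hS.pr_one hpr t)
  have hphi : ∀ t, Function.Injective (phi (WW M Z L) t) := fun t u u' huu => by
    rw [← hS.pr_phi hpr t u, ← hS.pr_phi hpr t u', huu]
  let e : Fin (Fintype.card (XX (Fin nA) p)) ≃ XX (Fin nA) p := (Fintype.equivFin _).symm
  let ee : Fin (Fintype.card (Fin nT ⊕ (Fin 4 × ZMod p))) ≃ Fin nT ⊕ (Fin 4 × ZMod p) :=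
    (Fintype.equivFin _).symm
  obtain ⟨φ, hφi, Ψ, hΨ⟩ : ∃ φ : Fin nT → FreeGroup (Fin (Fintype.card (XX (Fin nA) p))) →*
      FreeGroup (Fin (Fintype.card (XX (Fin nA) p))), (∀ t, Function.Injective (φ t)) ∧
      ∃ Ψ : PresentedGroup (rels φ) ≃* GG M Z L, ∀ i, Ψ (gen φ i) =
        PresentedGroup.of (Equiv.sumCongr e (Equiv.refl _) i) :=
    ⟨phF e (WW M Z L), fun t => phF_injective e _ t (hphi t), exists_iso e (WW M Z L)⟩
  let hh' : Fin (Fintype.card (Fin nT ⊕ (Fin 4 × ZMod p))) → PresentedGroup (rels φ) :=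
    fun j => Ψ.symm (hPhi M Z L (FreeGroup.of (ee j)))
  have hlift : ∀ u, FreeGroup.lift hh' u = Ψ.symm (hPhi M Z L (FreeGroup.map ee u)) := by
    intro u
    have : FreeGroup.lift hh' = (Ψ.symm.toMonoidHom.comp (hPhi M Z L)).comp
        (FreeGroup.map ee) := by
      refine FreeGroup.ext_hom _ _ fun j => ?_
      simp [hh']
    exact DFunLike.congr_fun this u
  have hgΨ : (fun i => Ψ (gen φ i)) = fun i => (PresentedGroup.of
      (Equiv.sumCongr e (Equiv.refl _) i) : GG M Z L) := funext hΨ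
  -- membership
  have hev : ∀ l, Ψ (ev (gen φ) l) = ev (fun i => (PresentedGroup.of
      (Equiv.sumCongr e (Equiv.refl _) i) : GG M Z L)) l := by
    intro l
    rw [← hgΨ]
    exact ev_map Ψ.toMonoidHom (gen φ) l
  have hcl : Subgroup.closure (Set.range hh') = (FreeGroup.lift hh').range :=
    (FreeGroup.range_lift_eq_closure).symm
  have hMem : ∀ l, Mem (gen φ) hh' l ↔ ev (fun i => (PresentedGroup.of
      (Equiv.sumCongr e (Equiv.refl _) i) : GG M Z L)) l ∈ (hPhi M Z L).range := by
    intro l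
    unfold Mem
    rw [hcl, ← hev]
    constructor
    · rintro ⟨u, hu⟩
      rw [hlift] at hu
      exact ⟨FreeGroup.map ee u, by rw [← hu, MulEquiv.apply_symm_apply]⟩
    · rintro ⟨v, hv⟩
      refine ⟨FreeGroup.map ee.symm v, ?_⟩
      rw [hlift, FreeGroup.map.comp]
      have h1 : (ee : _ → _) ∘ (ee.symm : _ → _) = id := funext fun x => ee.apply_symm_apply x
      rw [h1, FreeGroup.map.id, hv, MulEquiv.symm_apply_apply]
  have htw : ∀ k, Mem (gen φ) hh' (tw e nT (enc k)) ↔
      (Code.eval (Denumerable.ofNat Code k) 0).Dom := by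
    intro k
    rw [hMem, ev_tw, test_mem_iff hG ⟨h, hL⟩ (fun t => (hP t).trans (by omega)) (enc k) (henc2 k)]
    exact huniv k
  have hred : ∀ (α : Type) [Primcodable α] (P : α → Prop), REPred P →
      P ≤₀ Mem (gen φ) hh' := by
    intro α _ P hP
    refine (halt0_hard hP).trans ⟨fun k => tw e nT (enc k), ?_, fun k => (htw k).symm⟩
    exact (primrec_tw (nT := nT) e).to_comp.comp henc
  -- hyperbolicity
  have h4 : FourPt (wd (gen φ)) := by
    obtain ⟨δ, hδ⟩ := fourPt_HG hS
    refine ⟨δ, fun x y z w => ?_⟩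
    have h5 : ∀ a b, wd (gen φ) a b = wd (fun i : XX (Fin nA) p ⊕ Fin nT =>
        (PresentedGroup.of i : GG M Z L)) (Ψ a) (Ψ b) := by
      intro a b
      rw [← wd_map Ψ (gen φ) a b, hgΨ]
      exact wd_comp_equiv (g := fun i : XX (Fin nA) p ⊕ Fin nT =>
        (PresentedGroup.of i : GG M Z L)) (Equiv.sumCongr e (Equiv.refl _)) (Ψ a) (Ψ b)
    simp only [h5]
    exact hδ (Ψ x) (Ψ y) (Ψ z) (Ψ w)
  refine ⟨_, _, _, φ, hh', hφi, ?_, cay_connected (closure_gen φ),
    cay_thin (closure_gen φ) h4, cay_fourPoint (closure_gen φ) h4, ?_, mem_re (rels_finite φ) hh',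
    hred, not_computable_of_hard hred, ?_⟩
  · have h5 : ∀ u, Ψ (FreeGroup.lift (fun x => gen φ (Sum.inl x)) u) =
        iX (WW M Z L) (FreeGroup.map e u) := by
      intro u
      have : Ψ.toMonoidHom.comp (FreeGroup.lift (fun x => gen φ (Sum.inl x))) =
          (iX (WW M Z L)).comp (FreeGroup.map e) := by
        refine FreeGroup.ext_hom _ _ fun x => ?_
        simp only [MonoidHom.comp_apply, FreeGroup.lift_apply_of, FreeGroup.map.of]
        change Ψ (gen φ (Sum.inl x)) = _
        rw [hΨ]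
        simp [iX]
      exact DFunLike.congr_fun this u
    intro u u' huu
    have h6 := congrArg Ψ huu
    rw [h5, h5] at h6
    exact FreeGroup.map_injective e.injective (hinj h6)
  · intro u u' huu
    rw [hlift, hlift] at huu
    exact FreeGroup.map_injective ee.injective
      (hPhi_injective hG hinj (Ψ.symm.injective huu))
  · intro f hf
    obtain ⟨F, hF, hfF⟩ := exists_majorant f hf
    have hF2 : Computable (fun k => F (tw e nT (enc k)).length) :=
      hF.comp (Computable.list_length.comp ((primrec_tw (nT := nT) e).to_comp.comp henc))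
    obtain ⟨k, N, hkN, hN⟩ := exists_slow M hG henc hund hF2
    obtain ⟨v, hv, hNv⟩ := test_long (Z := Z) (L := L) (by omega) (enc k) N hN
    refine ⟨FreeGroup.map ee.symm v, ?_⟩
    have h1 : (ee : _ → _) ∘ (ee.symm : _ → _) = id := funext fun x => ee.apply_symm_apply x
    have h2 : FreeGroup.map ee (FreeGroup.map ee.symm v) = v := by
      rw [FreeGroup.map.comp, h1, FreeGroup.map.id]
    have h3 : FreeGroup.lift hh' (FreeGroup.map ee.symm v) = ev (gen φ) (tw e nT (enc k)) := by
      rw [hlift, h2, hv]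
      apply Ψ.injective
      rw [MulEquiv.apply_symm_apply, hev, ev_tw]
    have h5 : (cay (gen φ)).dist 1 (FreeGroup.lift hh' (FreeGroup.map ee.symm v)) ≤
        (tw e nT (enc k)).length := by
      refine cay_dist_le (closure_gen φ) _ ?_
      rw [h3, inv_one, one_mul]
      rfl
    have h6 : FreeGroup.norm v ≤ FreeGroup.norm (FreeGroup.map ee.symm v) := by
      have h7 := norm_map_le (fun j => FreeGroup.of (ee j)) (fun j => by simp)
        (FreeGroup.map ee.symm v)
      have h8 : FreeGroup.lift (fun j => FreeGroup.of (ee j)) (FreeGroup.map ee.symm v) = v :=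
        (DFunLike.congr_fun (FreeGroup.map_eq_lift (f := ee)) (FreeGroup.map ee.symm v)).symm.trans
          h2
      rw [h8] at h7
      exact h7
    calc f _ ≤ F (tw e nT (enc k)).length := hfF _ _ h5
      _ < N := hkN
      _ ≤ _ := hNv.trans h6

end Pool.Agent.Helper24.OWN
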