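import Mathlib

/-!
# MP_2857a5_co : from spanning oriented trees to oriented forests
-/

set_option autoImplicit false

namespace Pool.Agent.Helper24.OWN.OT

open Function

/-- A graph whose edges come from an acyclic graph by an injection is acyclic. -/
theorem acyc_of_inj {V W : Type*} (G : SimpleGraph W) (H : SimpleGraph V) (e : W → V)
    (he : Injective e) (hH : ∀ x y, H.Adj x y → ∃ a b, e a = x ∧ e b = y ∧ G.Adj a b)
    (h : G.IsAcyclic) : H.IsAcyclic := by
  classical
  have hs : ∀ x y, H.Adj x y → x ∈ Set.range e ∧ y ∈ Set.range e := by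
    intro x y hxy
    obtain ⟨a, b, ha, hb, -⟩ := hH x y hxy
    exact ⟨⟨a, ha⟩, ⟨b, hb⟩⟩
  have hwalk : ∀ {u v : V} (p : H.Walk u v), u ∈ Set.range e → ∀ x ∈ p.support, x ∈ Set.range e := by
    intro u v p
    induction p with
    | nil =>
      intro hu x hx
      simp only [SimpleGraph.Walk.support_nil, List.mem_singleton] at hx
      rw [hx]; exact hu
    | cons h p ih =>
      intro hu x hx
      rw [SimpleGraph.Walk.support_cons, List.mem_cons] at hx
      rcases hx with hx | hx
      · rw [hx]; exact hu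
      · exact ih (hs _ _ h).2 x hx
  -- the induced graph is acyclic
  have h2 : (H.induce (Set.range e)).IsAcyclic := by
    let f : H.induce (Set.range e) →g G :=
      { toFun := fun x => (Equiv.ofInjective e he).symm x
        map_rel' := by
          rintro ⟨x, hx⟩ ⟨y, hy⟩ hxy
          obtain ⟨a, b, rfl, rfl, hab⟩ := hH x y hxy
          simp only [Equiv.ofInjective_symm_apply]
          exact hab }
    exact h.comap f (fun x y hxy => (Equiv.ofInjective e he).symm.injective hxy)
  intro v c hc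
  have hv : v ∈ Set.range e := by
    cases c with
    | nil => exact absurd rfl hc.ne_nil
    | cons h' p => exact (hs _ _ h').1
  have hsup := hwalk c hv
  have h3 : (c.induce (Set.range e) hsup).IsCycle := by
    apply SimpleGraph.Walk.IsCycle.of_map (f := (SimpleGraph.Embedding.induce (Set.range e)).toHom)
    rw [SimpleGraph.Walk.map_induce]
    exact hc
  exact h2 _ h3

/-- In a finite acyclic graph every vertex reaches a vertex of degree at most one. -/
theorem exists_leaf {V : Type*} [Finite V] (H : SimpleGraph V) (hH : H.IsAcyclic) (a : V) :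
    ∃ b, H.Reachable a b ∧ (H.neighborSet b).ncard ≤ 1 := by
  classical
  have : Fintype V := Fintype.ofFinite V
  set C := H.connectedComponentMk a with hC
  have haC : a ∈ C.supp := rfl
  have hmem : ∀ x y, x ∈ C.supp → H.Adj x y → y ∈ C.supp := by
    intro x y hx hxy
    rw [SimpleGraph.ConnectedComponent.mem_supp_iff] at hx ⊢
    rw [← hx]
    exact SimpleGraph.ConnectedComponent.sound hxy.symm.reachable
  rcases subsingleton_or_nontrivial C.supp with hsub | hnt
  · refine ⟨a, SimpleGraph.Reachable.refl a, ?_⟩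
    have : H.neighborSet a = ∅ := by
      ext y
      simp only [SimpleGraph.mem_neighborSet, Set.mem_empty_iff_false, iff_false]
      intro hay
      have h1 := hsub.elim ⟨a, haC⟩ ⟨y, hmem a y haC hay⟩
      exact hay.ne (congrArg Subtype.val h1)
    rw [this, Set.ncard_empty]
    exact Nat.zero_le _
  · have hT : (H.induce C.supp).IsTree := hH.isTree_connectedComponent C
    obtain ⟨b, hb⟩ := hT.exists_vert_degree_one_of_nontrivial
    refine ⟨b.1, ?_, ?_⟩
    · have h1 : H.connectedComponentMk b.1 = H.connectedComponentMk a := b.2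
      exact (SimpleGraph.ConnectedComponent.exact h1).symm
    · have h2 : H.neighborSet b.1 = Subtype.val '' ((H.induce C.supp).neighborSet b) := by
        ext y
        constructor
        · intro hy
          exact ⟨⟨y, hmem b.1 y b.2 hy⟩, hy, rfl⟩
        · rintro ⟨z, hz, rfl⟩
          exact hz
      rw [h2, Set.ncard_image_of_injective _ Subtype.val_injective]
      rw [← SimpleGraph.card_neighborSet_eq_degree] at hb
      rw [← Nat.card_coe_set_eq, Nat.card_eq_fintype_card, hb]

/-- Extension of an acyclic graph to a tree. -/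
theorem ext_tree {V : Type*} [Finite V] [Nonempty V] (G : SimpleGraph V) (hG : G.IsAcyclic) (Δ : ℕ)
    (hΔ : 2 ≤ Δ) (hdeg : ∀ v, (G.neighborSet v).ncard ≤ Δ) :
    ∃ H : SimpleGraph V, G ≤ H ∧ H.IsTree ∧ ∀ v, (H.neighborSet v).ncard ≤ Δ := by
  classical
  let S : Set (SimpleGraph V) := {H | G ≤ H ∧ H.IsAcyclic ∧ ∀ v, (H.neighborSet v).ncard ≤ Δ}
  have hS : S.Finite := Set.toFinite _
  obtain ⟨H, hHS, hmax⟩ := hS.exists_maximal ⟨G, le_rfl, hG, hdeg⟩
  obtain ⟨h1, h2, h3⟩ := hHS
  refine ⟨H, h1, ⟨(SimpleGraph.connected_iff _).2 ⟨?_, inferInstance⟩, h2⟩, h3⟩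
  intro a b
  by_contra hab
  obtain ⟨a', ha1, ha2⟩ := exists_leaf H h2 a
  obtain ⟨b', hb1, hb2⟩ := exists_leaf H h2 b
  have hab' : ¬ H.Reachable a' b' := fun h => hab (ha1.trans (h.trans hb1.symm))
  have hne : a' ≠ b' := fun h => hab' (h ▸ SimpleGraph.Reachable.refl _)
  have hadj : ∀ x y, (H ⊔ SimpleGraph.edge a' b').Adj x y ↔
      H.Adj x y ∨ (x = a' ∧ y = b') ∨ (x = b' ∧ y = a') := by
    intro x y
    rw [SimpleGraph.sup_adj, SimpleGraph.edge_adj]
    constructor
    · rintro (h | ⟨h, -⟩)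
      · exact Or.inl h
      · exact Or.inr h
    · rintro (h | h)
      · exact Or.inl h
      · refine Or.inr ⟨h, ?_⟩
        rcases h with ⟨rfl, rfl⟩ | ⟨rfl, rfl⟩
        · exact hne
        · exact hne.symm
  have hnew : H ⊔ SimpleGraph.edge a' b' ∈ S := by
    refine ⟨h1.trans le_sup_left, h2.sup_edge_of_not_reachable hab', ?_⟩
    intro v
    by_cases hva : v = a'
    · have h4 : (H ⊔ SimpleGraph.edge a' b').neighborSet v ⊆ insert b' (H.neighborSet a') := by
        intro y hy
        rw [SimpleGraph.mem_neighborSet, hadj] at hy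
        rcases hy with hy | ⟨-, hy⟩ | ⟨hy, -⟩
        · right; rw [← hva]; exact hy
        · left; exact hy
        · exact absurd (hva.symm.trans hy) hne
      have h5 := Set.ncard_le_ncard h4 (Set.toFinite _)
      have h6 := Set.ncard_insert_le b' (H.neighborSet a')
      omega
    · by_cases hvb : v = b'
      · have h4 : (H ⊔ SimpleGraph.edge a' b').neighborSet v ⊆ insert a' (H.neighborSet b') := by
          intro y hy
          rw [SimpleGraph.mem_neighborSet, hadj] at hy
          rcases hy with hy | ⟨hy, -⟩ | ⟨-, hy⟩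
          · right; rw [← hvb]; exact hy
          · exact absurd hy hva
          · left; exact hy
        have h5 := Set.ncard_le_ncard h4 (Set.toFinite _)
        have h6 := Set.ncard_insert_le a' (H.neighborSet b')
        omega
      · have h4 : (H ⊔ SimpleGraph.edge a' b').neighborSet v ⊆ H.neighborSet v := by
          intro y hy
          rw [SimpleGraph.mem_neighborSet, hadj] at hy
          rcases hy with hy | ⟨hy, -⟩ | ⟨hy, -⟩
          · exact hy
          · exact absurd hy hva
          · exact absurd hy hvb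
        exact (Set.ncard_le_ncard h4 (Set.toFinite _)).trans (h3 v)
  have h7 := hmax hnew le_sup_left
  have h8 : H.Adj a' b' := h7 ((hadj a' b').2 (Or.inr (Or.inl ⟨rfl, rfl⟩)))
  exact hab' h8.reachable

/-- From oriented trees to oriented forests, on the type `Fin n`. -/
theorem forest (n : ℕ) (hn : 1 ≤ n) (Δ : ℕ) (hΔ : 2 ≤ Δ) (G : Fin n → Fin n → Prop)
    (h : ∀ T : Fin n → Fin n → Prop,
      (∀ u v : Fin n, T u v → ¬ T v u) →
      (SimpleGraph.fromRel T).IsTree →
      (∀ v : Fin n, ((SimpleGraph.fromRel T).neighborSet v).ncard ≤ Δ) →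
      ∃ φ : Fin n → Fin n, Injective φ ∧ ∀ u v : Fin n, T u v → G (φ u) (φ v))
    {W : Type*} [Finite W] (T : Digraph W) (hW : Nat.card W ≤ n)
    (hT : ∀ x y, T.Adj x y → ¬ T.Adj y x) (hac : T.toSimpleGraphInclusive.IsAcyclic)
    (hdeg : ∀ x, ({y | T.Adj x y} : Set W).ncard + ({y | T.Adj y x} : Set W).ncard ≤ Δ) :
    ∃ φ : W → Fin n, Injective φ ∧ ∀ x y, T.Adj x y → G (φ x) (φ y) := by
  classical
  have : Fintype W := Fintype.ofFinite W
  obtain ⟨e⟩ : Nonempty (W ↪ Fin n) := by
    rw [Function.Embedding.nonempty_iff_card_le, Fintype.card_fin, ← Nat.card_eq_fintype_card]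
    exact hW
  let T1 : Fin n → Fin n → Prop := fun x y => ∃ a b, e a = x ∧ e b = y ∧ T.Adj a b
  have hT1 : ∀ x y, T1 x y → ¬ T1 y x := by
    rintro x y ⟨a, b, ha, hb, hab⟩ ⟨b', a', hb', ha', hba⟩
    have h1 : b' = b := e.injective (hb'.trans hb.symm)
    have h2 : a' = a := e.injective (ha'.trans ha.symm)
    rw [h1, h2] at hba
    exact hT a b hab hba
  have hirr : ∀ x y, T1 x y → x ≠ y := by
    rintro x y hxy rfl
    exact hT1 x x hxy hxy
  have hG1 : ∀ x y, (SimpleGraph.fromRel T1).Adj x y → ∃ a b, e a = x ∧ e b = y ∧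
      T.toSimpleGraphInclusive.Adj a b := by
    rintro x y ⟨hxy, hxy2⟩
    rcases hxy2 with ⟨a, b, ha, hb, hab⟩ | ⟨b, a, hb, ha, hba⟩
    · refine ⟨a, b, ha, hb, ?_, Or.inl hab⟩
      rintro rfl
      exact hxy (ha.symm.trans hb)
    · refine ⟨a, b, ha, hb, ?_, Or.inr hba⟩
      rintro rfl
      exact hxy (ha.symm.trans hb)
  have hac1 : (SimpleGraph.fromRel T1).IsAcyclic := acyc_of_inj _ _ e e.injective hG1 hac
  have hdeg1 : ∀ v, ((SimpleGraph.fromRel T1).neighborSet v).ncard ≤ Δ := by
    intro v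
    by_cases hv : ∃ a, e a = v
    · obtain ⟨a, rfl⟩ := hv
      have h1 : (SimpleGraph.fromRel T1).neighborSet (e a) ⊆
          e '' ({y | T.Adj a y} ∪ {y | T.Adj y a}) := by
        intro y hy
        obtain ⟨a', b, ha', hb, -, hab⟩ := hG1 _ _ hy
        have h2 : a' = a := e.injective ha'
        subst h2
        exact ⟨b, hab, hb⟩
      calc ((SimpleGraph.fromRel T1).neighborSet (e a)).ncard
          ≤ (e '' ({y | T.Adj a y} ∪ {y | T.Adj y a})).ncard := Set.ncard_le_ncard h1 (Set.toFinite _)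
        _ ≤ ({y | T.Adj a y} ∪ {y | T.Adj y a} : Set W).ncard := Set.ncard_image_le (Set.toFinite _)
        _ ≤ _ := Set.ncard_union_le _ _
        _ ≤ Δ := hdeg a
    · have h1 : (SimpleGraph.fromRel T1).neighborSet v = ∅ := by
        ext y
        simp only [Set.mem_empty_iff_false, iff_false]
        intro hy
        obtain ⟨a', b, ha', -, -⟩ := hG1 _ _ hy
        exact hv ⟨a', ha'⟩
      rw [h1, Set.ncard_empty]
      exact Nat.zero_le _
  have : Nonempty (Fin n) := ⟨⟨0, hn⟩⟩
  obtain ⟨H, hH1, hH2, hH3⟩ := ext_tree (SimpleGraph.fromRel T1) hac1 Δ hΔ hdeg1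
  let T2 : Fin n → Fin n → Prop := fun x y =>
    T1 x y ∨ (H.Adj x y ∧ ¬ (SimpleGraph.fromRel T1).Adj x y ∧ x < y)
  have hT2 : ∀ u v, T2 u v → ¬ T2 v u := by
    rintro u v (h1 | ⟨h1, h2, h3⟩) (h4 | ⟨h4, h5, h6⟩)
    · exact hT1 _ _ h1 h4
    · exact h5 ⟨(hirr _ _ h1).symm, Or.inr h1⟩
    · exact h2 ⟨(hirr _ _ h4).symm, Or.inr h4⟩
    · exact absurd h3 h6.asymm
  have hTH : SimpleGraph.fromRel T2 = H := by
    ext x y
    constructor
    · rintro ⟨hxy, (h1 | ⟨h1, -⟩) | (h1 | ⟨h1, -⟩)⟩
      · exact hH1 ⟨hxy, Or.inl h1⟩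
      · exact h1
      · exact hH1 ⟨hxy, Or.inr h1⟩
      · exact h1.symm
    · intro hxy
      refine ⟨hxy.ne, ?_⟩
      by_cases hg : (SimpleGraph.fromRel T1).Adj x y
      · rcases hg.2 with h1 | h1
        · exact Or.inl (Or.inl h1)
        · exact Or.inr (Or.inl h1)
      · rcases lt_or_gt_of_ne hxy.ne with h1 | h1
        · exact Or.inl (Or.inr ⟨hxy, hg, h1⟩)
        · exact Or.inr (Or.inr ⟨hxy.symm, fun h => hg h.symm, h1⟩)
  obtain ⟨φ, hφ, hφ2⟩ := h T2 hT2 (by rw [hTH]; exact hH2) (by rw [hTH]; exact hH3)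
  refine ⟨fun w => φ (e w), hφ.comp e.injective, fun x y hxy => ?_⟩
  exact hφ2 _ _ (Or.inl ⟨x, y, rfl, rfl, hxy⟩)

end Pool.Agent.Helper24.OWN.OT
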